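import Pool.Agent.W5h51.OS.Ess2

open Topology Set

namespace Pool.Agent.W5h51.OS

namespace ColB

open EssAux EssB

theorem t_abs (s : ℝ) : |Real.arctan s / 2| < Real.pi / 4 := by
  rw [abs_lt]
  constructor
  · have := Real.neg_pi_div_two_lt_arctan s; linarith
  · have := Real.arctan_lt_pi_div_two s; linarith

theorem t_sq {t : ℝ} (h : |t| < Real.pi / 4) : t ^ 2 < 1 := by
  have h1 : |t| < 1 := by
    have := Real.pi_lt_four
    linarith
  nlinarith [abs_nonneg t, sq_abs t]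

theorem rr_sq (t : ℝ) : rr t ^ 2 = (1 + t ^ 2) / 2 := by
  unfold rr
  exact Real.sq_sqrt (by positivity)

theorem rr_pos (t : ℝ) : 0 < rr t := Real.sqrt_pos.2 (by positivity)

theorem coord {t : ℝ} (h : t ^ 2 < 1) (z : Circle) :
    (rr t * (z : ℂ).re) ^ 2 < 1 ∧ (rr t * (z : ℂ).im) ^ 2 < 1 := by
  have hz := circle_sq z
  have hr := rr_sq t
  constructor
  · rw [mul_pow, hr]
    nlinarith [sq_nonneg ((z : ℂ).im), sq_nonneg ((z : ℂ).re), sq_nonneg t]
  · rw [mul_pow, hr]
    nlinarith [sq_nonneg ((z : ℂ).im), sq_nonneg ((z : ℂ).re), sq_nonneg t]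

theorem mem_surf {t : ℝ} (h : t ^ 2 < 1) (z : Circle) : (loc2 z t).2.2 ^ 2 =
    1 + ((loc2 z t).1 : ℂ).re + ((loc2 z t).2.1 : ℂ).re := by
  have hc := coord h z
  have h1 : |rr t * (z : ℂ).re| ≤ 1 := (sq_le_one_iff_abs_le_one _).1 hc.1.le
  have h2 : |rr t * (z : ℂ).im| ≤ 1 := (sq_le_one_iff_abs_le_one _).1 hc.2.le
  show t ^ 2 = 1 + (AA (rr t * (z : ℂ).re) : ℂ).re + (AA (rr t * (z : ℂ).im) : ℂ).re
  rw [AA_re h1, AA_re h2]
  have hz := circle_sq z
  have hr := rr_sq t
  have : 1 + (2 * (rr t * (z : ℂ).re) ^ 2 - 1) + (2 * (rr t * (z : ℂ).im) ^ 2 - 1) =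
      2 * rr t ^ 2 * ((z : ℂ).re ^ 2 + (z : ℂ).im ^ 2) - 1 := by ring
  rw [this, hz, hr]; ring

/-- inverse of `AA` -/
noncomputable def sg (z : Circle) : ℝ :=
  -(z : ℂ).im / (2 * Real.sqrt ((1 - (z : ℂ).re) / 2))

theorem sg_AA {s : ℝ} (h : s ^ 2 < 1) : sg (AA s) = s := by
  have h1 : |s| ≤ 1 := (sq_le_one_iff_abs_le_one _).1 h.le
  unfold sg
  rw [AA_re h1, AA_im h1, show (1 - (2 * s ^ 2 - 1)) / 2 = 1 - s ^ 2 by ring]
  have h2 : 0 < Real.sqrt (1 - s ^ 2) := Real.sqrt_pos.2 (by linarith)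
  field_simp

theorem sg_sq {z : Circle} (h : (z : ℂ).re < 1) : sg z ^ 2 = (1 + (z : ℂ).re) / 2 := by
  unfold sg
  have hz := circle_sq z
  have h1 : 0 < (1 - (z : ℂ).re) / 2 := by linarith
  rw [div_pow, mul_pow, Real.sq_sqrt h1.le, div_eq_iff (by positivity)]
  nlinarith

theorem AA_sg {z : Circle} (h : (z : ℂ).re < 1) : AA (sg z) = z := by
  have h2 := sg_sq h
  have h3 : |sg z| ≤ 1 := by
    rw [← sq_le_one_iff_abs_le_one, h2]; linarith
  apply Circle.ext
  apply Complex.ext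
  · rw [AA_re h3, h2]; ring
  · rw [AA_im h3, h2]
    have h4 : 1 - (1 + (z : ℂ).re) / 2 = (1 - (z : ℂ).re) / 2 := by ring
    rw [h4]
    have h5 : 0 < Real.sqrt ((1 - (z : ℂ).re) / 2) := Real.sqrt_pos.2 (by linarith)
    unfold sg
    field_simp

theorem sg_cont : ContinuousOn sg {z : Circle | (z : ℂ).re < 1} := by
  unfold sg
  refine ContinuousOn.div (by fun_prop) (by fun_prop) ?_
  intro z hz
  have hz' : (z : ℂ).re < 1 := hz
  have h5 : 0 < Real.sqrt ((1 - (z : ℂ).re) / 2) := Real.sqrt_pos.2 (by linarith)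
  positivity

theorem re_lt {x : GenusTwo} (h : x.1.2.2 ^ 2 < 1) :
    (x.1.1 : ℂ).re < 1 ∧ (x.1.2.1 : ℂ).re < 1 := by
  have hx := x.2
  have h1 := circle_sq x.1.1
  have h2 := circle_sq x.1.2.1
  constructor
  · nlinarith [sq_nonneg ((x.1.2.1 : ℂ).im), sq_nonneg ((x.1.1 : ℂ).im),
      sq_nonneg ((x.1.2.1 : ℂ).re + 1)]
  · nlinarith [sq_nonneg ((x.1.2.1 : ℂ).im), sq_nonneg ((x.1.1 : ℂ).im),
      sq_nonneg ((x.1.1 : ℂ).re + 1)]

/-- the direction -/
noncomputable def dir (x : GenusTwo) : ℂ :=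
  ((sg x.1.1 / rr x.1.2.2 : ℝ) : ℂ) + ((sg x.1.2.1 / rr x.1.2.2 : ℝ) : ℂ) * Complex.I

theorem dir_mem {x : GenusTwo} (h : x.1.2.2 ^ 2 < 1) : ‖dir x‖ = 1 := by
  have h1 := sg_sq (re_lt h).1
  have h2 := sg_sq (re_lt h).2
  have hr := rr_sq x.1.2.2
  have hp := rr_pos x.1.2.2
  have h3 : Complex.normSq (dir x) = 1 := by
    rw [Complex.normSq_apply]
    have e1 : (dir x).re = sg x.1.1 / rr x.1.2.2 := by simp [dir]
    have e2 : (dir x).im = sg x.1.2.1 / rr x.1.2.2 := by simp [dir]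
    rw [e1, e2]
    have : sg x.1.1 / rr x.1.2.2 * (sg x.1.1 / rr x.1.2.2) +
        sg x.1.2.1 / rr x.1.2.2 * (sg x.1.2.1 / rr x.1.2.2) =
        (sg x.1.1 ^ 2 + sg x.1.2.1 ^ 2) / rr x.1.2.2 ^ 2 := by field_simp
    rw [this, h1, h2, hr, div_eq_one_iff_eq (by positivity)]
    have := x.2
    linarith
  rw [Complex.norm_def, h3, Real.sqrt_one]

end ColB

open EssAux EssB ColB

theorem collar2 : S_COLLAR2 := by
  have hm : ∀ (z : Circle) (s : ℝ), (loc2 z (Real.arctan s / 2)).2.2 ^ 2 =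
    1 + ((loc2 z (Real.arctan s / 2)).1 : ℂ).re + ((loc2 z (Real.arctan s / 2)).2.1 : ℂ).re :=
    fun z s => mem_surf (t_sq (t_abs s)) z
  refine ⟨hm, ?_⟩
  set Φ : Circle × ℝ → GenusTwo := fun x => ⟨loc2 x.1 (Real.arctan x.2 / 2), hm x.1 x.2⟩ with hΦ
  have hcont : Continuous Φ := by
    apply Continuous.subtype_mk
    have hrr : Continuous fun x : Circle × ℝ => rr (Real.arctan x.2 / 2) := by
      unfold rr
      refine Real.continuous_sqrt.comp ?_
      have := Real.continuous_arctan.comp (continuous_snd (X := Circle) (Y := ℝ))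
      exact (continuous_const.add ((this.div_const 2).pow 2)).div_const 2
    have hAA : Continuous AA := by
      unfold AA
      exact Circle.exp.continuous.comp
        (continuous_const.add (continuous_const.mul Real.continuous_arcsin))
    refine Continuous.prodMk (hAA.comp (hrr.mul (by fun_prop))) (Continuous.prodMk
      (hAA.comp (hrr.mul (by fun_prop))) ?_)
    exact (Real.continuous_arctan.comp continuous_snd).div_const 2
  -- the inverse
  have hdir : ∀ x : Circle × ℝ, dir (Φ x) = x.1 := by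
    rintro ⟨z, s⟩
    have ht := t_sq (t_abs s)
    have hc := coord ht z
    have hp := rr_pos (Real.arctan s / 2)
    have e1 : sg (Φ (z, s)).1.1 = rr (Real.arctan s / 2) * (z : ℂ).re := sg_AA hc.1
    have e2 : sg (Φ (z, s)).1.2.1 = rr (Real.arctan s / 2) * (z : ℂ).im := sg_AA hc.2
    have e3 : (Φ (z, s)).1.2.2 = Real.arctan s / 2 := rfl
    unfold dir
    rw [e1, e2, e3, mul_div_cancel_left₀ _ hp.ne', mul_div_cancel_left₀ _ hp.ne']
    exact Complex.re_add_im _
  have htan : ∀ x : Circle × ℝ, Real.tan (2 * (Φ x).1.2.2) = x.2 := by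
    rintro ⟨z, s⟩
    show Real.tan (2 * (Real.arctan s / 2)) = s
    rw [mul_div_cancel₀ _ (two_ne_zero), Real.tan_arctan]
  have hinj : Function.Injective Φ := by
    intro a b hab
    have h1 : (a.1 : ℂ) = b.1 := by rw [← hdir a, ← hdir b, hab]
    have h2 : a.2 = b.2 := by rw [← htan a, ← htan b, hab]
    exact Prod.ext (Circle.ext h1) h2
  set V : Set GenusTwo := {x | |x.1.2.2| < Real.pi / 4} with hV
  have hVo : IsOpen V := isOpen_lt (by fun_prop) continuous_const
  have hVm : ∀ x ∈ V, x.1.2.2 ^ 2 < 1 := fun x hx => t_sq hx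
  let Ψ : GenusTwo → ℂ × ℝ := fun x => (dir x, Real.tan (2 * x.1.2.2))
  have hΨ : ContinuousOn Ψ V := by
    have hrr : Continuous fun x : GenusTwo => rr x.1.2.2 := by
      unfold rr
      exact Real.continuous_sqrt.comp (by fun_prop)
    have hs1 : ContinuousOn (fun x : GenusTwo => sg x.1.1) V :=
      sg_cont.comp (by fun_prop) (fun x hx => (re_lt (hVm x hx)).1)
    have hs2 : ContinuousOn (fun x : GenusTwo => sg x.1.2.1) V :=
      sg_cont.comp (by fun_prop) (fun x hx => (re_lt (hVm x hx)).2)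
    have hd1 := hs1.div hrr.continuousOn (fun x _ => (rr_pos x.1.2.2).ne')
    have hd2 := hs2.div hrr.continuousOn (fun x _ => (rr_pos x.1.2.2).ne')
    refine ContinuousOn.prodMk ?_ ?_
    · exact (Complex.continuous_ofReal.comp_continuousOn hd1).add
        ((Complex.continuous_ofReal.comp_continuousOn hd2).mul continuousOn_const)
    · refine Real.continuousOn_tan.comp (by fun_prop) ?_
      intro x hx
      have h1 := abs_lt.1 (show |x.1.2.2| < Real.pi / 4 from hx)
      exact (Real.cos_pos_of_mem_Ioo ⟨by linarith [h1.1], by linarith [h1.2]⟩).ne'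
  have hopen : IsOpenMap Φ := by
    intro U hU
    have hemb : IsEmbedding (fun x : Circle × ℝ => ((x.1 : ℂ), x.2)) :=
      (IsEmbedding.subtypeVal (p := fun z : ℂ => z ∈ Submonoid.unitSphere ℂ)).prodMap
        IsEmbedding.id
    obtain ⟨U', hU', hUU⟩ := hemb.isInducing.isOpen_iff.1 hU
    have hEq : Φ '' U = V ∩ Ψ ⁻¹' U' := by
      ext x
      constructor
      · rintro ⟨y, hy, rfl⟩
        refine ⟨t_abs y.2, ?_⟩
        show (dir (Φ y), Real.tan (2 * (Φ y).1.2.2)) ∈ U'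
        rw [hdir, htan]
        rw [← hUU] at hy
        exact hy
      · rintro ⟨hxV, hxU⟩
        have hx1 := hVm x hxV
        have hx2 := abs_lt.1 (show |x.1.2.2| < Real.pi / 4 from hxV)
        let z : Circle := ⟨dir x, mem_sphere_zero_iff_norm.2 (dir_mem hx1)⟩
        refine ⟨(z, Real.tan (2 * x.1.2.2)), ?_, ?_⟩
        · rw [← hUU]
          exact hxU
        · have ht : Real.arctan (Real.tan (2 * x.1.2.2)) / 2 = x.1.2.2 := by
            rw [Real.arctan_tan (by linarith) (by linarith)]; ring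
          have hp := rr_pos x.1.2.2
          have hzr : (z : ℂ).re = sg x.1.1 / rr x.1.2.2 := by
            show (dir x).re = _
            simp [dir]
          have hzi : (z : ℂ).im = sg x.1.2.1 / rr x.1.2.2 := by
            show (dir x).im = _
            simp [dir]
          apply Subtype.ext
          show loc2 z (Real.arctan (Real.tan (2 * x.1.2.2)) / 2) = x.1
          rw [ht]
          unfold loc2
          rw [hzr, hzi, mul_div_cancel₀ _ hp.ne', mul_div_cancel₀ _ hp.ne',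
            AA_sg (re_lt hx1).1, AA_sg (re_lt hx1).2]
    rw [hEq]
    exact hΨ.isOpen_inter_preimage hVo hU'
  exact IsOpenEmbedding.of_continuous_injective_isOpenMap hcont hinj hopen

end Pool.Agent.W5h51.OS
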