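import Pool.Agent.W5h51.OS.Defs

open Topology Set

namespace Pool.Agent.W5h51.OS

namespace EssAux

theorem ccoe : Continuous fun z : Circle => (z : ℂ) := by fun_prop

/-- `φ` has a continuous logarithm. -/
def Good (φ : Circle → ℂ) : Prop :=
  ∃ l : Circle → ℂ, Continuous l ∧ ∀ z, Complex.exp (l z) = φ z

theorem Good.mul {φ ψ : Circle → ℂ} (h : Good φ) (k : Good ψ) :
    Good (fun z => φ z * ψ z) := by
  obtain ⟨l, hl, hl'⟩ := h
  obtain ⟨m, hm, hm'⟩ := k
  exact ⟨fun z => l z + m z, hl.add hm, fun z => by rw [Complex.exp_add, hl', hm']⟩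

theorem Good.div {φ ψ : Circle → ℂ} (h : Good φ) (k : Good ψ) :
    Good (fun z => φ z / ψ z) := by
  obtain ⟨l, hl, hl'⟩ := h
  obtain ⟨m, hm, hm'⟩ := k
  exact ⟨fun z => l z - m z, hl.sub hm, fun z => by rw [Complex.exp_sub, hl', hm']⟩

theorem Good.ne_zero {φ : Circle → ℂ} (h : Good φ) (z : Circle) : φ z ≠ 0 := by
  obtain ⟨l, -, hl'⟩ := h
  rw [← hl']; exact Complex.exp_ne_zero _

theorem Good.conj {φ : Circle → ℂ} (h : Good φ) :
    Good (fun z => (starRingEnd ℂ) (φ z)) := by
  obtain ⟨l, hl, hl'⟩ := h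
  exact ⟨fun z => (starRingEnd ℂ) (l z), Complex.continuous_conj.comp hl,
    fun z => by rw [Complex.exp_conj, hl']⟩

theorem good_const {c : ℂ} (hc : c ≠ 0) : Good (fun _ => c) :=
  ⟨fun _ => Complex.log c, continuous_const, fun _ => Complex.exp_log hc⟩

theorem good_slit {φ : Circle → ℂ} (hφ : Continuous φ) (h : ∀ z, φ z ∈ Complex.slitPlane) :
    Good φ :=
  ⟨fun z => Complex.log (φ z), hφ.clog h,
    fun z => Complex.exp_log (Complex.slitPlane_ne_zero (h z))⟩

theorem good_hom (F : C(unitInterval × Circle, ℂ)) (hF : ∀ x, F x ≠ 0) (s t : unitInterval) :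
    Good (fun z => F (s, z) / F (t, z)) := by
  refine PreconnectedSpace.induction₂' (fun s t => Good (fun z => F (s, z) / F (t, z))) ?_ ?_ s t
  · intro s
    have key : ∀ᶠ t in 𝓝 s, ∀ z ∈ (univ : Set Circle),
        (F (s, z) / F (t, z) ∈ Complex.slitPlane ∧ F (t, z) / F (s, z) ∈ Complex.slitPlane) := by
      refine isCompact_univ.eventually_forall_of_forall_eventually (fun z _ => ?_)
      have c1 : Continuous fun x : unitInterval × Circle => F (s, x.2) / F x :=
        (F.continuous.comp (by fun_prop)).div F.continuous hF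
      have c2 : Continuous fun x : unitInterval × Circle => F x / F (s, x.2) :=
        F.continuous.div (F.continuous.comp (by fun_prop)) (fun x => hF _)
      have m1 : ∀ᶠ x in 𝓝 (s, z), F (s, x.2) / F x ∈ Complex.slitPlane := by
        refine c1.continuousAt.eventually (Complex.isOpen_slitPlane.mem_nhds ?_)
        show F (s, z) / F (s, z) ∈ Complex.slitPlane
        rw [div_self (hF _)]; exact Complex.one_mem_slitPlane
      have m2 : ∀ᶠ x in 𝓝 (s, z), F x / F (s, x.2) ∈ Complex.slitPlane := by
        refine c2.continuousAt.eventually (Complex.isOpen_slitPlane.mem_nhds ?_)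
        show F (s, z) / F (s, z) ∈ Complex.slitPlane
        rw [div_self (hF _)]; exact Complex.one_mem_slitPlane
      exact (m1.and m2).mono fun x hx => hx
    refine key.mono fun t ht => ⟨good_slit ?_ fun z => (ht z trivial).1,
      good_slit ?_ fun z => (ht z trivial).2⟩
    · exact (F.continuous.comp (by fun_prop)).div (F.continuous.comp (by fun_prop)) (fun z => hF _)
    · exact (F.continuous.comp (by fun_prop)).div (F.continuous.comp (by fun_prop)) (fun z => hF _)
  · refine ⟨fun a b c h k => ?_⟩
    obtain ⟨l, hl, hl'⟩ := h.mul k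
    refine ⟨l, hl, fun z => ?_⟩
    rw [hl' z]
    have h1 := hF (b, z)
    have h2 := hF (c, z)
    field_simp

/-- `-z^2` has no continuous logarithm. -/
theorem not_good_sq : ¬ Good (fun z : Circle => -((z : ℂ) ^ 2)) := by
  rintro ⟨l, hl, hl'⟩
  have hcov := Complex.isCoveringMap_exp
  have e : (fun a : ℝ => l (Circle.exp a)) =
      fun a : ℝ => 2 * (a : ℂ) * Complex.I + l (Circle.exp 0) := by
    refine hcov.eq_of_comp_eq (hl.comp Circle.exp.continuous) (by fun_prop) ?_ 0 (by simp)
    funext a
    apply Subtype.ext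
    show Complex.exp (l (Circle.exp a)) =
      Complex.exp (2 * (a : ℂ) * Complex.I + l (Circle.exp 0))
    rw [Complex.exp_add, hl', hl']
    simp only [Circle.coe_exp, Circle.exp_zero, Circle.coe_one, ← Complex.exp_nat_mul]
    push_cast
    simp [mul_assoc]
  have e1 := congrFun e (2 * Real.pi)
  simp only [Circle.exp_two_pi, Circle.exp_zero] at e1
  have e2 : 2 * ((2 * Real.pi : ℝ) : ℂ) * Complex.I = 0 := by
    have := e1
    rw [eq_comm, add_eq_right] at this
    exact this
  have e3 := congrArg Complex.im e2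
  simp at e3

/-- the function `f` -/
noncomputable def ff (x : Torus) : ℂ := ((x.1 : ℂ).im : ℂ) + ((x.2 : ℂ).im : ℂ) * Complex.I

/-- the function `h` -/
noncomputable def hh (x : Torus) : ℂ :=
  ((x.1 : ℂ).im : ℂ) + (((x.2 : ℂ).im * (x.1 : ℂ).re : ℝ) : ℂ) * Complex.I

theorem ff_re (x : Torus) : (ff x).re = (x.1 : ℂ).im := by simp [ff]
theorem ff_im (x : Torus) : (ff x).im = (x.2 : ℂ).im := by simp [ff]
theorem hh_re (x : Torus) : (hh x).re = (x.1 : ℂ).im := by simp [hh]
theorem hh_im (x : Torus) : (hh x).im = (x.2 : ℂ).im * (x.1 : ℂ).re := by simp [hh]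

theorem continuous_im1 : Continuous fun x : Torus => (x.1 : ℂ).im :=
  Complex.continuous_im.comp (ccoe.comp continuous_fst)
theorem continuous_im2 : Continuous fun x : Torus => (x.2 : ℂ).im :=
  Complex.continuous_im.comp (ccoe.comp continuous_snd)
theorem continuous_re1 : Continuous fun x : Torus => (x.1 : ℂ).re :=
  Complex.continuous_re.comp (ccoe.comp continuous_fst)

theorem continuous_ff : Continuous ff :=
  (Complex.continuous_ofReal.comp continuous_im1).add
    ((Complex.continuous_ofReal.comp continuous_im2).mul continuous_const)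

theorem continuous_hh : Continuous hh :=
  (Complex.continuous_ofReal.comp continuous_im1).add
    ((Complex.continuous_ofReal.comp (continuous_im2.mul continuous_re1)).mul continuous_const)

theorem ff_ne {x : Torus} (hx : x ∉ four) : ff x ≠ 0 := by
  intro h
  apply hx
  have h1 := congrArg Complex.re h
  have h2 := congrArg Complex.im h
  rw [ff_re] at h1
  rw [ff_im] at h2
  exact ⟨h1, h2⟩

theorem circle_sq (z : Circle) : (z : ℂ).re ^ 2 + (z : ℂ).im ^ 2 = 1 := by
  have := Circle.normSq_coe z
  rw [Complex.normSq_apply] at this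
  nlinarith

theorem hh_ne {x : Torus} (hx : x ∉ four) : hh x ≠ 0 := by
  intro h
  apply hx
  have h1 := congrArg Complex.re h
  have h2 := congrArg Complex.im h
  rw [hh_re] at h1
  rw [hh_im] at h2
  have h3 := circle_sq x.1
  simp only [Complex.zero_re, Complex.zero_im] at h1 h2
  refine ⟨h1, ?_⟩
  rcases mul_eq_zero.1 h2 with h4 | h4
  · exact h4
  · rw [h1, h4] at h3; norm_num at h3

theorem good_pair (g : Torus → ℂ) (hg : Continuous g) (hg0 : ∀ x, x ∉ four → g x ≠ 0)
    {c d : C(Circle, Punctured four)} (h : c.Homotopic d) :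
    Good (fun z => g (c z) / g (d z)) := by
  obtain ⟨H⟩ := h
  have := good_hom ⟨fun x => g (H x), hg.comp (continuous_subtype_val.comp H.continuous)⟩
    (fun x => hg0 _ (H x).2) 0 1
  simpa using this

theorem good_of_homotopic (g : Torus → ℂ) (hg : Continuous g) (hg0 : ∀ x, x ∉ four → g x ≠ 0)
    {c d : C(Circle, Punctured four)} (h : c.Homotopic d) (hd : Good (fun z => g (d z))) :
    Good (fun z => g (c z)) := by
  obtain ⟨l, hl, hl'⟩ := (good_pair g hg hg0 h).mul hd
  refine ⟨l, hl, fun z => ?_⟩
  rw [hl' z]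
  exact div_mul_cancel₀ _ (hg0 _ (d z).2)

/-! the special curve -/

theorem loc_im1 (z : Circle) : ((loc z 0).1 : ℂ).im = Real.cos (2 * (z : ℂ).re) := by
  simp only [loc, rad, Real.arctan_zero, zero_div, add_zero, Circle.coe_exp,
    Complex.exp_ofReal_mul_I_im]
  rw [Real.sin_add]; simp

theorem loc_re1 (z : Circle) : ((loc z 0).1 : ℂ).re = -Real.sin (2 * (z : ℂ).re) := by
  simp only [loc, rad, Real.arctan_zero, zero_div, add_zero, Circle.coe_exp,
    Complex.exp_ofReal_mul_I_re]
  rw [Real.cos_add]; simp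

theorem loc_im2 (z : Circle) : ((loc z 0).2 : ℂ).im = Real.sin (2 * (z : ℂ).im) := by
  simp only [loc, rad, Real.arctan_zero, zero_div, add_zero, Circle.coe_exp,
    Complex.exp_ofReal_mul_I_im]

theorem re_le (z : Circle) : |(z : ℂ).re| ≤ 1 := by
  have := Complex.abs_re_le_norm (z : ℂ); rwa [Circle.norm_coe] at this

theorem im_le (z : Circle) : |(z : ℂ).im| ≤ 1 := by
  have := Complex.abs_im_le_norm (z : ℂ); rwa [Circle.norm_coe] at this

theorem cos_two_neg : Real.cos 2 < 0 := Real.cos_two_neg

/-- `sin (2 t)` has the sign of `t` for `|t| ≤ 1`. -/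
theorem sin_pos_of {t : ℝ} (h0 : 0 < t) (h1 : t ≤ 1) : 0 < Real.sin (2 * t) :=
  Real.sin_pos_of_pos_of_lt_pi (by linarith) (by have := Real.pi_gt_three; linarith)

theorem sin_mul_nonneg {t : ℝ} (h : |t| ≤ 1) : t ≠ 0 → 0 < t * Real.sin (2 * t) := by
  intro h0
  rw [abs_le] at h
  rcases lt_or_gt_of_ne h0 with h1 | h1
  · have := sin_pos_of (t := -t) (by linarith) (by linarith)
    rw [mul_neg, Real.sin_neg] at this
    nlinarith
  · exact mul_pos h1 (sin_pos_of h1 h.2)

theorem slit_f (z : Circle) : -(ff (loc z 0)) ∈ Complex.slitPlane := by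
  rw [Complex.mem_slitPlane_iff]
  rw [Complex.neg_re, Complex.neg_im, ff_re, ff_im, loc_im1, loc_im2]
  by_cases h : (z : ℂ).im = 0
  · left
    have h1 := circle_sq z
    rw [h] at h1
    have h2 : (z : ℂ).re = 1 ∨ (z : ℂ).re = -1 := by
      have : ((z : ℂ).re - 1) * ((z : ℂ).re + 1) = 0 := by nlinarith
      rcases mul_eq_zero.1 this with h | h
      · left; linarith
      · right; linarith
    rcases h2 with h2 | h2
    · rw [h2, mul_one]; linarith [cos_two_neg]
    · rw [h2, mul_neg, mul_one, Real.cos_neg]; linarith [cos_two_neg]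
  · right
    have := sin_mul_nonneg (im_le z) h
    intro h3
    have h4 : Real.sin (2 * (z : ℂ).im) = 0 := by linarith
    rw [h4, mul_zero] at this
    exact lt_irrefl _ this

theorem slit_h (z : Circle) : hh (loc z 0) / (-((z : ℂ) ^ 2)) ∈ Complex.slitPlane := by
  set x := (z : ℂ).re with hx
  set y := (z : ℂ).im with hy
  have h1 := circle_sq z
  rw [← hx, ← hy] at h1
  have e1 : ((z : ℂ) ^ 2).re = x ^ 2 - y ^ 2 := by
    rw [pow_two, Complex.mul_re]; ring
  have e2 : ((z : ℂ) ^ 2).im = 2 * x * y := by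
    rw [pow_two, Complex.mul_im]; ring
  have e3 : (hh (loc z 0)).re = Real.cos (2 * x) := by rw [hh_re, loc_im1]
  have e4 : (hh (loc z 0)).im = -(Real.sin (2 * y) * Real.sin (2 * x)) := by
    rw [hh_im, loc_im2, loc_re1]; ring
  have hn : (z : ℂ) ^ 2 ≠ 0 := pow_ne_zero _ (Circle.coe_ne_zero z)
  have ns : Complex.normSq (-((z : ℂ) ^ 2)) = 1 := by
    rw [Complex.normSq_neg, map_pow, Circle.normSq_coe, one_pow]
  rw [Complex.mem_slitPlane_iff]
  rw [Complex.div_re, Complex.div_im, ns, Complex.neg_re, Complex.neg_im, e1, e2, e3, e4]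
  by_contra hcon
  push Not at hcon
  obtain ⟨hc1, hc2⟩ := hcon
  have sx : x ≠ 0 → 0 < x * Real.sin (2 * x) := sin_mul_nonneg (re_le z)
  have sy : y ≠ 0 → 0 < y * Real.sin (2 * y) := sin_mul_nonneg (im_le z)
  have h2 := cos_two_neg
  simp only [div_one] at hc1 hc2
  by_cases hy0 : y = 0
  · have hx2 : x = 1 ∨ x = -1 := by
      have : (x - 1) * (x + 1) = 0 := by rw [hy0] at h1; nlinarith
      rcases mul_eq_zero.1 this with h | h
      · left; linarith
      · right; linarith
    have hcx : Real.cos (2 * x) = Real.cos 2 := by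
      rcases hx2 with h | h
      · rw [h, mul_one]
      · rw [h, mul_neg, mul_one, Real.cos_neg]
    rw [hcx, hy0] at hc1
    rcases hx2 with h | h <;> rw [h] at hc1 <;> nlinarith
  · by_cases hx0 : x = 0
    · rw [hx0] at hc1 h1
      simp only [mul_zero, Real.cos_zero, Real.sin_zero] at hc1
      nlinarith
    · have p1 := sx hx0
      have p2 := sy hy0
      set A := Real.sin (2 * x)
      set B := Real.sin (2 * y)
      set C := Real.cos (2 * x)
      -- im = 0, re ≤ 0
      have hpos : 0 < (x * y) * (A * B) := by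
        have := mul_pos p1 p2; nlinarith
      have hw : 0 < (2 * x * y) * (A * B) := by nlinarith
      have k1 : (2 * x * y) * (A * B) *
          (C * -(x ^ 2 - y ^ 2) + -(B * A) * -(2 * x * y)) ≤ 0 :=
        mul_nonpos_of_nonneg_of_nonpos hw.le hc1
      have k2 : (2 * x * y) * (A * B) *
          (C * -(x ^ 2 - y ^ 2) + -(B * A) * -(2 * x * y)) =
          (C * (2 * x * y)) ^ 2 + ((2 * x * y) * (A * B)) ^ 2 -
            C * (2 * x * y) * (-(B * A) * -(x ^ 2 - y ^ 2) - C * -(2 * x * y)) := by ring
      rw [k2, hc2, mul_zero, sub_zero] at k1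
      nlinarith [sq_nonneg (C * (2 * x * y)), sq_pos_of_pos hw]

end EssAux

open EssAux

theorem ess : S_ESS := by
  intro c hc
  have g1 : Good (fun z => ff (c z)) := by
    have h1 : Good (fun z => -(ff (loc z 0))) := by
      refine good_slit ?_ slit_f
      have : Continuous fun z => (c z : Torus) := continuous_subtype_val.comp c.continuous
      simp only [← hc]
      exact (continuous_ff.comp this).neg
    obtain ⟨l, hl, hl'⟩ := h1.mul (good_const (c := -1) (by norm_num))
    refine ⟨l, hl, fun z => ?_⟩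
    rw [hl' z]
    show -(ff (loc z 0)) * -1 = ff (c z)
    rw [hc z]; ring
  have g2 : ¬ Good (fun z => hh (c z)) := by
    intro h
    have h1 : Good (fun z : Circle => hh (loc z 0) / (-((z : ℂ) ^ 2))) := by
      refine good_slit ?_ slit_h
      have : Continuous fun z => (c z : Torus) := continuous_subtype_val.comp c.continuous
      simp only [← hc]
      exact (continuous_hh.comp this).div (ccoe.pow 2).neg
        (fun z => neg_ne_zero.2 (pow_ne_zero _ (Circle.coe_ne_zero z)))
    obtain ⟨l, hl, hl'⟩ := h.div h1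
    refine not_good_sq ⟨l, hl, fun z => ?_⟩
    rw [hl' z]
    have hn : hh (loc z 0) ≠ 0 := by rw [← hc z]; exact hh_ne (c z).2
    show hh (c z) / (hh (loc z 0) / (-((z : ℂ) ^ 2))) = -((z : ℂ) ^ 2)
    rw [hc z, div_div_cancel₀ hn]
  refine ⟨?_, ?_⟩
  · rintro ⟨x, hx⟩
    exact g2 (good_of_homotopic hh continuous_hh (fun x => hh_ne) hx
      (good_const (hh_ne x.2)))
  · intro p hp hinto
    have hp0 : (p.1 : ℂ).re ≠ 0 := by
      intro h
      have h1 := circle_sq p.1
      rw [h, hp.1] at h1; norm_num at h1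
    have hW : {x : Torus | 0 < (x.1 : ℂ).re * (p.1 : ℂ).re} ∈ 𝓝 p := by
      refine (isOpen_lt continuous_const (continuous_re1.mul continuous_const)).mem_nhds ?_
      exact mul_self_pos.2 hp0
    obtain ⟨d, hcd, hd⟩ := hinto _ hW
    have hdc : Continuous fun z => (d z : Torus) := continuous_subtype_val.comp d.continuous
    have gd : Good (fun z => ff (d z)) := good_of_homotopic ff continuous_ff (fun x => ff_ne)
      hcd.symm g1
    apply g2
    refine good_of_homotopic hh continuous_hh (fun x => hh_ne) hcd ?_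
    rcases lt_or_gt_of_ne hp0 with h0 | h0
    · -- `Re < 0`
      have hlt : ∀ z, ((d z : Torus).1 : ℂ).re < 0 := fun z => by
        have := hd z
        simp only [Set.mem_ofPred_eq] at this
        nlinarith
      have h1 : Good (fun z => hh (d z) / (starRingEnd ℂ) (ff (d z))) := by
        refine good_slit ((continuous_hh.comp hdc).div
          (Complex.continuous_conj.comp (continuous_ff.comp hdc))
          (fun z => (map_ne_zero _).2 (ff_ne (d z).2))) (fun z => ?_)
        rw [Complex.mem_slitPlane_iff]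
        left
        rw [Complex.div_re, Complex.normSq_conj, Complex.conj_re, Complex.conj_im, ff_re, ff_im,
          hh_re, hh_im, ← add_div]
        refine div_pos ?_ (Complex.normSq_pos.2 (ff_ne (d z).2))
        have hn := ff_ne (d z).2
        have hz := hlt z
        set A := ((d z : Torus).1 : ℂ).im with hA
        set B := ((d z : Torus).2 : ℂ).im with hB
        set C := ((d z : Torus).1 : ℂ).re with hC
        have hne : A ≠ 0 ∨ B ≠ 0 := by
          by_contra hcon
          push Not at hcon
          exact (d z).2 ⟨hcon.1, hcon.2⟩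
        rcases hne with hne | hne
        · have := sq_pos_of_ne_zero hne
          nlinarith [sq_nonneg B, mul_nonneg (sq_nonneg B) (neg_nonneg.2 hz.le)]
        · have := mul_pos (sq_pos_of_ne_zero hne) (neg_pos.2 hz)
          nlinarith [sq_nonneg A]
      obtain ⟨l, hl, hl'⟩ := h1.mul gd.conj
      refine ⟨l, hl, fun z => ?_⟩
      rw [hl' z]
      exact div_mul_cancel₀ _ ((map_ne_zero _).2 (ff_ne (d z).2))
    · have hlt : ∀ z, 0 < ((d z : Torus).1 : ℂ).re := fun z => by
        have := hd z
        simp only [Set.mem_ofPred_eq] at this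
        exact (pos_iff_pos_of_mul_pos this).2 h0
      have h1 : Good (fun z => hh (d z) / ff (d z)) := by
        refine good_slit ((continuous_hh.comp hdc).div
          (continuous_ff.comp hdc) (fun z => ff_ne (d z).2)) (fun z => ?_)
        rw [Complex.mem_slitPlane_iff]
        left
        rw [Complex.div_re, ff_re, ff_im, hh_re, hh_im, ← add_div]
        refine div_pos ?_ (Complex.normSq_pos.2 (ff_ne (d z).2))
        have hz := hlt z
        set A := ((d z : Torus).1 : ℂ).im with hA
        set B := ((d z : Torus).2 : ℂ).im with hB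
        set C := ((d z : Torus).1 : ℂ).re with hC
        have hne : A ≠ 0 ∨ B ≠ 0 := by
          by_contra hcon
          push Not at hcon
          exact (d z).2 ⟨hcon.1, hcon.2⟩
        rcases hne with hne | hne
        · have := sq_pos_of_ne_zero hne
          nlinarith [sq_nonneg B, mul_nonneg (sq_nonneg B) hz.le]
        · have := mul_pos (sq_pos_of_ne_zero hne) hz
          nlinarith [sq_nonneg A]
      obtain ⟨l, hl, hl'⟩ := h1.mul gd
      refine ⟨l, hl, fun z => ?_⟩
      rw [hl' z]
      exact div_mul_cancel₀ _ (ff_ne (d z).2)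

end Pool.Agent.W5h51.OS
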