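import Pool.Agent.W5h51.OS.Defs3
import Pool.Agent.W5h51.OS.Ess

open Topology Set

namespace Pool.Agent.W5h51.OS

namespace EssB

open EssAux

/-- `-z` has no continuous logarithm. -/
theorem not_good_neg : ¬ Good (fun z : Circle => -(z : ℂ)) := by
  intro h
  obtain ⟨l, hl, hl'⟩ := (h.mul h).mul (good_const (c := -1) (by norm_num))
  refine not_good_sq ⟨l, hl, fun z => ?_⟩
  rw [hl' z]; ring

theorem AA_re {s : ℝ} (h : |s| ≤ 1) : (AA s : ℂ).re = 2 * s ^ 2 - 1 := by
  obtain ⟨h1, h2⟩ := abs_le.1 h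
  have : (AA s : ℂ).re = Real.cos (Real.pi + 2 * Real.arcsin s) := by
    rw [AA, Circle.coe_exp, Complex.exp_ofReal_mul_I_re]
  rw [this, add_comm, Real.cos_add_pi, Real.cos_two_mul, Real.cos_sq', Real.sin_arcsin h1 h2]
  ring

theorem AA_im {s : ℝ} (h : |s| ≤ 1) : (AA s : ℂ).im = -(2 * s * Real.sqrt (1 - s ^ 2)) := by
  obtain ⟨h1, h2⟩ := abs_le.1 h
  have : (AA s : ℂ).im = Real.sin (Real.pi + 2 * Real.arcsin s) := by
    rw [AA, Circle.coe_exp, Complex.exp_ofReal_mul_I_im]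
  rw [this, add_comm, Real.sin_add_pi, Real.sin_two_mul, Real.sin_arcsin h1 h2, Real.cos_arcsin]

/-- the function `f(u,w) = Re u + 1 + Re w + i Im w` -/
noncomputable def fF (u w : Circle) : ℂ :=
  (((u : ℂ).re + 1 + (w : ℂ).re : ℝ) : ℂ) + ((w : ℂ).im : ℂ) * Complex.I

theorem fF_re (u w : Circle) : (fF u w).re = (u : ℂ).re + 1 + (w : ℂ).re := by simp [fF]
theorem fF_im (u w : Circle) : (fF u w).im = (w : ℂ).im := by simp [fF]

theorem fF_cont : Continuous fun x : Circle × Circle => fF x.1 x.2 := by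
  unfold fF
  fun_prop

theorem fF_ne {a : ℝ} {w : Circle} {t : ℝ}
    (h : t ^ 2 = 1 + (Circle.exp a : ℂ).re + (w : ℂ).re) : fF (Circle.exp (a / 2)) w ≠ 0 := by
  intro h0
  have h1 := congrArg Complex.re h0
  have h2 := congrArg Complex.im h0
  rw [fF_re, Complex.zero_re] at h1
  rw [fF_im, Complex.zero_im] at h2
  have h3 := circle_sq w
  rw [h2] at h3
  have h4 : (Circle.exp a : ℂ).re = 2 * ((Circle.exp (a / 2) : ℂ).re) ^ 2 - 1 := by
    rw [Circle.coe_exp, Complex.exp_ofReal_mul_I_re, Circle.coe_exp,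
      Complex.exp_ofReal_mul_I_re, ← Real.cos_two_mul]
    congr 1; ring
  have h5 := circle_sq (Circle.exp (a / 2))
  have h6 : ((w : ℂ).re - 1) * ((w : ℂ).re + 1) = 0 := by nlinarith
  rcases mul_eq_zero.1 h6 with h7 | h7
  · have h8 : (Circle.exp (a / 2) : ℂ).re = -2 := by linarith
    rw [h8] at h5
    nlinarith [sq_nonneg ((Circle.exp (a / 2) : ℂ).im)]
  · have h8 : (Circle.exp (a / 2) : ℂ).re = 0 := by linarith
    rw [h4, h8] at h
    nlinarith [sq_nonneg t]

end EssB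

open EssAux EssB

theorem ess2 : S_ESS2 := by
  intro c hc hnull
  obtain ⟨x, ⟨H⟩⟩ := hnull
  have hs2 : (0 : ℝ) < Real.sqrt 2 := by positivity
  have hr : rr 0 = 1 / Real.sqrt 2 := by
    unfold rr
    rw [show ((1 + (0 : ℝ) ^ 2) / 2) = 1 / 2 by norm_num, Real.sqrt_div (by norm_num),
      Real.sqrt_one]
  -- the angle of the first coordinate
  let L0 : C(Circle, ℝ) := ⟨fun z => Real.pi + 2 * Real.arcsin (rr 0 * (z : ℂ).re), by
    refine continuous_const.add (continuous_const.mul (Real.continuous_arcsin.comp ?_))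
    fun_prop⟩
  let H1 : C(unitInterval × Circle, Circle) := ⟨fun p => (H p).1.1, by fun_prop⟩
  have h0 : ∀ a : Circle, H1 (0, a) = Circle.exp (L0 a) := by
    intro a
    show (H (0, a)).1.1 = _
    rw [H.apply_zero a, hc a]
    rfl
  set L := Circle.isCoveringMap_exp.liftHomotopy H1 L0 h0 with hL
  have hL1 : ∀ p, Circle.exp (L p) = (H p).1.1 := fun p =>
    congrFun (Circle.isCoveringMap_exp.liftHomotopy_lifts H1 L0 h0) p
  have hL0 : ∀ a, L (0, a) = L0 a := fun a =>
    Circle.isCoveringMap_exp.liftHomotopy_zero H1 L0 h0 a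
  let K : C(unitInterval × Circle, ℂ) :=
    ⟨fun p => fF (Circle.exp (L p / 2)) (H p).1.2.1, by
      exact fF_cont.comp (Continuous.prodMk
        (Circle.exp.continuous.comp (L.continuous.div_const 2)) (by fun_prop))⟩
  have hK : ∀ p, K p ≠ 0 := by
    intro p
    refine fF_ne (t := (H p).1.2.2) ?_
    rw [hL1 p]
    exact (H p).2
  have hgood := good_hom K hK 0 1
  -- at the end
  have hconst : (fun z : Circle => L (1, z)) = fun _ => L (1, 1) := by
    refine Circle.isCoveringMap_exp.eq_of_comp_eq (by fun_prop) continuous_const ?_ 1 rfl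
    funext z
    show Circle.exp (L (1, z)) = Circle.exp (L (1, 1))
    rw [hL1, hL1, H.apply_one, H.apply_one]
    rfl
  have hK1 : ∀ z, K (1, z) = K (1, 1) := by
    intro z
    show fF (Circle.exp (L (1, z) / 2)) (H (1, z)).1.2.1 =
      fF (Circle.exp (L (1, 1) / 2)) (H (1, 1)).1.2.1
    rw [congrFun hconst z, H.apply_one, H.apply_one]
    rfl
  have hKg : Good (fun z => K (0, z)) := by
    obtain ⟨l, hl, hl'⟩ := hgood.mul (good_const (hK (1, 1)))
    refine ⟨l, hl, fun z => ?_⟩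
    rw [hl' z]
    show K (0, z) / K (1, z) * K (1, 1) = K (0, z)
    rw [hK1 z]
    exact div_mul_cancel₀ _ (hK _)
  -- at the beginning
  set r := rr 0 with hrdef
  have hr0 : 0 < r := by rw [hr]; positivity
  have hr2 : r ^ 2 = 1 / 2 := by
    rw [hr, div_pow, one_pow, Real.sq_sqrt (by norm_num)]
  have hcs : ∀ z : Circle, |r * (z : ℂ).re| ≤ 1 ∧ |r * (z : ℂ).im| ≤ 1 := by
    intro z
    have h1 := circle_sq z
    constructor
    · rw [← sq_le_one_iff_abs_le_one, mul_pow, hr2]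
      nlinarith [sq_nonneg ((z : ℂ).im)]
    · rw [← sq_le_one_iff_abs_le_one, mul_pow, hr2]
      nlinarith [sq_nonneg ((z : ℂ).re)]
  have hKre : ∀ z, (K (0, z)).re = -(r * (z : ℂ).re) + 2 * (r * (z : ℂ).im) ^ 2 := by
    intro z
    show (fF (Circle.exp (L (0, z) / 2)) (H (0, z)).1.2.1).re = _
    rw [fF_re, H.apply_zero, hc z, hL0]
    show (Circle.exp ((Real.pi + 2 * Real.arcsin (r * (z : ℂ).re)) / 2) : ℂ).re + 1 +
      (AA (r * (z : ℂ).im) : ℂ).re = _
    rw [AA_re (hcs z).2, Circle.coe_exp, Complex.exp_ofReal_mul_I_re,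
      show (Real.pi + 2 * Real.arcsin (r * (z : ℂ).re)) / 2 =
        Real.arcsin (r * (z : ℂ).re) + Real.pi / 2 by ring, Real.cos_add_pi_div_two,
      Real.sin_arcsin (abs_le.1 (hcs z).1).1 (abs_le.1 (hcs z).1).2]
    ring
  have hKim : ∀ z, (K (0, z)).im =
      -(2 * (r * (z : ℂ).im) * Real.sqrt (1 - (r * (z : ℂ).im) ^ 2)) := by
    intro z
    show (fF (Circle.exp (L (0, z) / 2)) (H (0, z)).1.2.1).im = _
    rw [fF_im, H.apply_zero, hc z]
    exact AA_im (hcs z).2
  have hslit : ∀ z : Circle, K (0, z) / (-(z : ℂ)) ∈ Complex.slitPlane := by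
    intro z
    have hz := circle_sq z
    set a := (z : ℂ).re with ha
    set b := (z : ℂ).im with hb
    set w := Real.sqrt (1 - (r * b) ^ 2) with hw
    have hw0 : 0 < w := by
      apply Real.sqrt_pos.2
      rw [mul_pow, hr2]
      nlinarith [sq_nonneg a]
    have e1 : K (0, z) / (-(z : ℂ)) = K (0, z) * (starRingEnd ℂ) (-(z : ℂ)) := by
      have hne : (z : ℂ) ≠ 0 := Circle.coe_ne_zero z
      rw [div_eq_iff (neg_ne_zero.2 hne), mul_assoc, mul_comm ((starRingEnd ℂ) _),
        Complex.mul_conj, Complex.normSq_neg, Circle.normSq_coe]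
      simp
    have e2 : (K (0, z) / (-(z : ℂ))).re = r * a ^ 2 - 2 * r ^ 2 * a * b ^ 2 + 2 * r * b ^ 2 * w := by
      rw [e1, Complex.mul_re, hKre, hKim]
      simp only [map_neg, Complex.neg_re, Complex.neg_im, Complex.conj_re, Complex.conj_im]
      rw [← ha, ← hb, ← hw]
      ring
    have e3 : (K (0, z) / (-(z : ℂ))).im = b * (-(r * a) + 2 * r ^ 2 * b ^ 2 + 2 * r * a * w) := by
      rw [e1, Complex.mul_im, hKre, hKim]
      simp only [map_neg, Complex.neg_re, Complex.neg_im, Complex.conj_re, Complex.conj_im]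
      rw [← ha, ← hb, ← hw]
      ring
    rw [Complex.mem_slitPlane_iff, e2, e3]
    by_cases hb0 : b = 0
    · left
      rw [hb0] at hz ⊢
      have : a ^ 2 = 1 := by linarith
      rw [this]; simp [hr0]
    by_cases h4 : -(r * a) + 2 * r ^ 2 * b ^ 2 + 2 * r * a * w = 0
    · left
      have h5 : r * a ^ 2 - 2 * r ^ 2 * a * b ^ 2 + 2 * r * b ^ 2 * w = 2 * r * w := by
        have h6 : r * a ^ 2 - 2 * r ^ 2 * a * b ^ 2 + 2 * r * b ^ 2 * w =
            2 * r * w * (a ^ 2 + b ^ 2) -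
              a * (-(r * a) + 2 * r ^ 2 * b ^ 2 + 2 * r * a * w) := by ring
        rw [h6, h4, hz]; ring
      rw [h5]; positivity
    · right
      exact mul_ne_zero hb0 h4
  have hq : Good (fun z : Circle => K (0, z) / (-(z : ℂ))) := by
    refine good_slit ?_ hslit
    exact (K.continuous.comp (by fun_prop)).div ccoe.neg
      (fun z => neg_ne_zero.2 (Circle.coe_ne_zero z))
  obtain ⟨l, hl, hl'⟩ := hKg.div hq
  refine not_good_neg ⟨l, hl, fun z => ?_⟩
  rw [hl' z]
  exact div_div_cancel₀ (hK _)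

end Pool.Agent.W5h51.OS
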