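import Pool.Agent.W5h51.OS.Defs2

/-!
# The push-off lemma (for closed `P`)

A simple closed curve which is null-homotopic on the torus and meets the core of an embedded annulus in at most one
point misses one of the parallel curves.
-/

set_option autoImplicit false

open Topology Set Filter

namespace Pool.Agent.W5h51.OS.Gen

variable {M : Type} [TopologicalSpace M] [T2Space M]

namespace PushA

/-- the clamp to `[-1,1]` -/
noncomputable def tau (t : ℝ) : ℝ := max (-1) (min 1 t)

theorem tau_cont : Continuous tau :=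
  continuous_const.max (continuous_const.min continuous_id)

theorem tau_of_mem {t : ℝ} (h1 : -1 ≤ t) (h2 : t ≤ 1) : tau t = t := by
  unfold tau
  rw [min_eq_right h2, max_eq_right h1]

theorem tau_eq_zero {t : ℝ} (h : tau t = 0) : t = 0 := by
  unfold tau at h
  rcases le_total 1 t with h1 | h1
  · rw [min_eq_left h1, max_eq_right (by norm_num)] at h
    norm_num at h
  · rw [min_eq_right h1] at h
    rcases le_total (-1) t with h2 | h2
    · rwa [max_eq_right h2] at h
    · rw [max_eq_left h2] at h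
      norm_num at h

theorem tau_abs (t : ℝ) : |tau t| ≤ 1 := by
  rw [abs_le]
  unfold tau
  exact ⟨le_max_left _ _, max_le (by norm_num) (min_le_left _ _)⟩

/-- the value of the function on the parallel curve of height `t` -/
noncomputable def col (t : ℝ) : Circle := Circle.exp (Real.pi + Real.pi * tau t)

theorem col_cont : Continuous col :=
  Circle.exp.continuous.comp (continuous_const.add (continuous_const.mul tau_cont))

theorem col_out {t : ℝ} (h : t ∉ Icc (-1 : ℝ) 1) : col t = 1 := by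
  unfold col tau
  rcases lt_or_ge t (-1) with h1 | h1
  · rw [min_eq_right (by linarith), max_eq_left h1.le]
    rw [show Real.pi + Real.pi * -1 = 0 by ring, Circle.exp_zero]
  · have h2 : 1 < t := by
      by_contra h3
      exact h ⟨h1, not_lt.1 h3⟩
    rw [min_eq_left h2.le, max_eq_right (by norm_num)]
    rw [show Real.pi + Real.pi * 1 = 2 * Real.pi by ring, Circle.exp_two_pi]

theorem col_eq {t : ℝ} (h : col t = Circle.exp Real.pi) : t = 0 := by
  unfold col at h
  rw [Circle.exp_eq_exp] at h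
  obtain ⟨m, hm⟩ := h
  have hpi := Real.pi_pos
  have h1 : Real.pi * tau t = Real.pi * (2 * m) := by linarith
  have h2 : tau t = 2 * m := mul_left_cancel₀ hpi.ne' h1
  have h3 := tau_abs t
  rw [h2] at h3
  have h4 : m = 0 := by
    by_contra hne
    have h5 : (1 : ℝ) ≤ |(m : ℝ)| := by exact_mod_cast Int.one_le_abs hne
    rw [abs_mul, abs_of_pos (by norm_num : (0 : ℝ) < 2)] at h3
    linarith
  rw [h4] at h2
  refine tau_eq_zero ?_
  rw [h2]
  simp

/-- the function on the torus -/
noncomputable def FF (φ : Circle × ℝ → M) : M → Circle :=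
  Function.extend φ (fun q => col q.2) (fun _ => 1)

theorem FF_apply {φ : Circle × ℝ → M} (h : Function.Injective φ) (q : Circle × ℝ) :
    FF φ (φ q) = col q.2 := h.extend_apply _ _ _

theorem FF_cont {φ : Circle × ℝ → M} (h : IsOpenEmbedding φ) : Continuous (FF φ) := by
  rw [continuous_iff_continuousAt]
  intro x
  by_cases hx : x ∈ range φ
  · obtain ⟨q, rfl⟩ := hx
    rw [← h.continuousAt_iff]
    have h1 : FF φ ∘ φ = fun q => col q.2 := by
      funext q
      exact FF_apply h.injective q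
    rw [h1]
    exact (col_cont.comp continuous_snd).continuousAt
  · have hA : IsCompact (φ '' (univ ×ˢ Icc (-1 : ℝ) 1)) :=
      (isCompact_univ.prod isCompact_Icc).image h.continuous
    have h1 : (φ '' (univ ×ˢ Icc (-1 : ℝ) 1))ᶜ ∈ 𝓝 x :=
      hA.isClosed.isOpen_compl.mem_nhds fun h2 => hx (image_subset_range _ _ h2)
    have h2 : ∀ y ∈ (φ '' (univ ×ˢ Icc (-1 : ℝ) 1))ᶜ, FF φ y = 1 := by
      intro y hy
      by_cases hy2 : y ∈ range φ
      · obtain ⟨q, rfl⟩ := hy2
        rw [FF_apply h.injective]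
        refine col_out fun h3 => hy ⟨q, ⟨mem_univ _, h3⟩, rfl⟩
      · exact Function.extend_apply' _ _ _ hy2
    have h3 : FF φ =ᶠ[𝓝 x] fun _ => 1 := by
      filter_upwards [h1] with y hy
      exact h2 y hy
    exact continuousAt_const.congr h3.symm

/-- transport of lifts along a homotopy -/
theorem lift_hom (F : C(M, Circle)) {γ δ : C(Circle, M)} (h : γ.Homotopic δ)
    (th : C(Circle, ℝ)) (h1 : ∀ z, Circle.exp (th z) = F (γ z)) :
    ∃ th : C(Circle, ℝ), ∀ z, Circle.exp (th z) = F (δ z) := by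
  obtain ⟨H⟩ := h
  set K : C(unitInterval × Circle, Circle) := F.comp H.toContinuousMap with hK
  have h0 : ∀ a : Circle, K (0, a) = Circle.exp (th a) := by
    intro a
    rw [hK, ContinuousMap.comp_apply, h1]
    congr 1
    exact H.apply_zero a
  set L := Circle.isCoveringMap_exp.liftHomotopy K th h0 with hL
  refine ⟨⟨fun z => L (1, z), by fun_prop⟩, fun z => ?_⟩
  have h1 := congrFun (Circle.isCoveringMap_exp.liftHomotopy_lifts K th h0) (1, z)
  refine h1.trans ?_
  rw [hK, ContinuousMap.comp_apply]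
  congr 1
  exact H.apply_one z

/-- the circle minus a point -/
theorem compl_pre (z : Circle) : IsPreconnected ({z}ᶜ : Set Circle) := by
  obtain ⟨a, rfl⟩ := Circle.exp_surjective z
  have h : ({Circle.exp a}ᶜ : Set Circle) = Circle.exp '' Ioo a (a + 2 * Real.pi) := by
    ext y
    rw [mem_compl_iff, mem_singleton_iff]
    constructor
    · intro hy
      have h1 : y ∈ Circle.exp '' Ioc a (a + 2 * Real.pi) := by
        rw [Circle.periodic_exp.image_Ioc Real.two_pi_pos]
        exact Circle.exp_surjective y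
      obtain ⟨t, ht, rfl⟩ := h1
      refine ⟨t, ⟨ht.1, lt_of_le_of_ne ht.2 ?_⟩, rfl⟩
      rintro rfl
      exact hy (Circle.periodic_exp a)
    · rintro ⟨t, ht, rfl⟩ h2
      rw [Circle.exp_eq_exp] at h2
      obtain ⟨m, hm⟩ := h2
      have hpi := Real.pi_pos
      have h3 : (0 : ℝ) < m := by
        by_contra h4
        have := mul_nonneg (neg_nonneg.2 (not_lt.1 h4)) (by positivity : (0 : ℝ) ≤ 2 * Real.pi)
        linarith [ht.1]
      have h5 : (m : ℝ) < 1 := by
        by_contra h4
        have := mul_nonneg (sub_nonneg.2 (not_lt.1 h4)) (by positivity : (0 : ℝ) ≤ 2 * Real.pi)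
        linarith [ht.2]
      have h6 : 0 < m := by exact_mod_cast h3
      have h7 : m < 1 := by exact_mod_cast h5
      omega
  rw [h]
  exact isPreconnected_Ioo.image _ Circle.exp.continuous.continuousOn

/-- one sign -/
theorem sign_ex {th : Circle → ℝ} (hth : Continuous th) {z0 : Circle} {p : ℝ}
    (h : ∀ z, z ≠ z0 → th z ≠ p) :
    ∃ s : ℝ, (s = 1 ∨ s = -1) ∧ ∀ z, z ≠ z0 → 0 < s * (th z - p) := by
  have hc : (th '' ({z0}ᶜ : Set Circle)).OrdConnected :=
    ((compl_pre z0).image _ hth.continuousOn).ordConnected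
  by_cases h1 : ∃ z, z ≠ z0 ∧ p < th z
  · obtain ⟨z1, hz1, hp⟩ := h1
    refine ⟨1, Or.inl rfl, fun z hz => ?_⟩
    rw [one_mul, sub_pos]
    by_contra h2
    have h3 := hc.out ⟨z, hz, rfl⟩ ⟨z1, hz1, rfl⟩ ⟨not_lt.1 h2, hp.le⟩
    obtain ⟨w, hw, hw2⟩ := h3
    exact h w hw hw2
  · refine ⟨-1, Or.inr rfl, fun z hz => ?_⟩
    have h2 : ¬ p < th z := fun h3 => h1 ⟨z, hz, h3⟩
    have h3 := lt_of_le_of_ne (not_lt.1 h2) (h z hz)
    linarith

end PushA

open PushA

/-- the push-off lemma -/
theorem push_closed {P : Set M} (hP : IsClosed P) (Φ : Circle × ℝ → Punctured P)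
    (hΦ : IsOpenEmbedding Φ) (c : C(Circle, Punctured P)) (hc : Function.Injective c)
    (h0 : NullHomologous c)
    (h1 : (range c ∩ range (fun z => Φ (z, 0))).encard ≤ 1) :
    ∃ t : ℝ, Disjoint (range c) (range (fun z => Φ (z, t))) := by
  by_cases hS : Disjoint (range c) (range (fun z => Φ (z, 0)))
  · exact ⟨0, hS⟩
  rw [Set.not_disjoint_iff] at hS
  obtain ⟨x, ⟨z0, hz0⟩, ⟨w0, hw0⟩⟩ := hS
  have hone : ∀ z w, c z = Φ (w, 0) → z = z0 := by
    intro z w hzw
    rw [Set.encard_le_one_iff] at h1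
    have h2 := h1 (c z) x ⟨⟨z, rfl⟩, ⟨w, hzw.symm⟩⟩ ⟨⟨z0, hz0⟩, ⟨w0, hw0⟩⟩
    rw [← hz0] at h2
    exact hc h2
  have hφ : IsOpenEmbedding (fun q => ((Φ q : Punctured P) : M)) :=
    (hP.isOpen_compl.isOpenEmbedding_subtypeVal).comp hΦ
  obtain ⟨th0, hth0⟩ := h0 ⟨FF _, FF_cont hφ⟩
  have hF : ∀ z w t, c z = Φ (w, t) → Circle.exp (th0 z) = col t := by
    intro z w t hzw
    rw [hth0 z]
    change FF (fun q => ((Φ q : Punctured P) : M)) (c z : Punctured P) = col t
    rw [hzw]
    exact FF_apply hφ.injective (w, t)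
  have hF0 : ∀ z, Circle.exp (th0 z) = Circle.exp Real.pi → z = z0 := by
    intro z hz
    rw [hth0 z] at hz
    change FF (fun q => ((Φ q : Punctured P) : M)) (c z : Punctured P) = _ at hz
    by_cases hr : ((c z : Punctured P) : M) ∈ range (fun q => ((Φ q : Punctured P) : M))
    · obtain ⟨q, hq⟩ := hr
      rw [← hq] at hz
      have h2 := FF_apply hφ.injective q
      change FF (fun q => ((Φ q : Punctured P) : M)) ((Φ q : Punctured P) : M) = col q.2 at h2
      change FF (fun q => ((Φ q : Punctured P) : M)) ((Φ q : Punctured P) : M) = _ at hz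
      rw [h2] at hz
      have h3 := col_eq hz
      refine hone z q.1 ?_
      rw [← h3]
      exact (Subtype.ext hq).symm
    · have h2 : FF (fun q => ((Φ q : Punctured P) : M)) (c z : Punctured P) = 1 :=
        Function.extend_apply' _ _ _ hr
      rw [h2] at hz
      exact absurd hz.symm Circle.exp_pi_ne_one
  have hz0' : Circle.exp (th0 z0) = Circle.exp Real.pi := by
    rw [hF z0 w0 0 (hz0.trans hw0.symm)]
    unfold col
    rw [tau_of_mem (by norm_num) (by norm_num), mul_zero, add_zero]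
  rw [Circle.exp_eq_exp] at hz0'
  obtain ⟨m0, hm0⟩ := hz0'
  obtain ⟨s, hs, hsign⟩ := sign_ex (th := th0) th0.continuous (z0 := z0) (p := th0 z0) (by
    intro z hz h2
    apply hz
    apply hF0
    rw [h2, Circle.exp_eq_exp]
    exact ⟨m0, hm0⟩)
  by_contra hno
  push Not at hno
  have hex : ∀ n : ℕ, ∃ q : Circle × Circle, c q.1 = Φ (q.2, -s / (n + 1)) := by
    intro n
    have h2 := hno (-s / (n + 1))
    rw [Set.not_disjoint_iff] at h2
    obtain ⟨y, ⟨z, hz⟩, ⟨w, hw⟩⟩ := h2
    exact ⟨(z, w), hz.trans hw.symm⟩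
  choose q hq using hex
  obtain ⟨a, g, hg, ha⟩ := CompactSpace.tendsto_subseq q
  have ht0 : Tendsto (fun n : ℕ => -s / ((n : ℝ) + 1)) atTop (𝓝 0) := by
    have h2 := (tendsto_one_div_add_atTop_nhds_zero_nat (𝕜 := ℝ)).const_mul (-s)
    rw [mul_zero] at h2
    refine h2.congr fun n => ?_
    ring
  have hlim : Tendsto (fun n => c (q (g n)).1) atTop (𝓝 (Φ (a.2, 0))) := by
    have h2 : Tendsto (fun n => Φ ((q (g n)).2, -s / (((g n : ℕ) : ℝ) + 1))) atTop (𝓝 (Φ (a.2, 0))) := by
      refine (hΦ.continuous.tendsto _).comp ?_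
      exact ((continuous_snd.tendsto a).comp ha).prodMk_nhds (ht0.comp hg.tendsto_atTop)
    refine h2.congr fun n => (hq (g n)).symm
  have hlim2 : Tendsto (fun n => c (q (g n)).1) atTop (𝓝 (c a.1)) :=
    (c.continuous.tendsto _).comp ((continuous_fst.tendsto a).comp ha)
  have ha0 : a.1 = z0 := hone a.1 a.2 (tendsto_nhds_unique hlim2 hlim)
  have hlim3 : Tendsto (fun n => s * (th0 (q (g n)).1 - th0 z0)) atTop (𝓝 0) := by
    have h2 : Tendsto (fun n => th0 (q (g n)).1) atTop (𝓝 (th0 z0)) := by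
      rw [← ha0]
      exact (th0.continuous.tendsto _).comp ((continuous_fst.tendsto a).comp ha)
    have h3 := (h2.sub_const (th0 z0)).const_mul s
    rwa [sub_self, mul_zero] at h3
  have hpi := Real.pi_pos
  have hbig : ∀ n : ℕ, Real.pi ≤ s * (th0 (q n).1 - th0 z0) := by
    intro n
    have hn : (0 : ℝ) < (n : ℝ) + 1 := by positivity
    have hn1 : (1 : ℝ) / ((n : ℝ) + 1) ≤ 1 := by
      rw [div_le_one hn]
      have : (0 : ℝ) ≤ n := Nat.cast_nonneg n
      linarith
    have hn0 : (0 : ℝ) < 1 / ((n : ℝ) + 1) := by positivity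
    have h2 := hF _ _ _ (hq n)
    have h3 : tau (-s / ((n : ℝ) + 1)) = -s / ((n : ℝ) + 1) := by
      rcases hs with rfl | rfl
      · refine tau_of_mem ?_ ?_
        · rw [neg_div]; linarith
        · rw [neg_div]; linarith
      · refine tau_of_mem ?_ ?_
        · rw [neg_neg]; linarith
        · rw [neg_neg]; linarith
    unfold col at h2
    rw [h3, Circle.exp_eq_exp] at h2
    obtain ⟨m, hm⟩ := h2
    have hne : (q n).1 ≠ z0 := by
      intro h4
      rw [h4, hm0] at hm
      -- the two angles differ by a small nonzero amount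
      have h5 : Real.pi * (s / ((n : ℝ) + 1)) = Real.pi * (2 * ((m : ℝ) - m0)) := by
        have : Real.pi * (-s / ((n : ℝ) + 1)) = - (Real.pi * (s / ((n : ℝ) + 1))) := by ring
        rw [this] at hm
        linarith
      have h6 := mul_left_cancel₀ hpi.ne' h5
      have h7 : |s / ((n : ℝ) + 1)| = 1 / ((n : ℝ) + 1) := by
        rw [abs_div, abs_of_pos hn]
        rcases hs with rfl | rfl <;> simp
      have h8 : |(2 : ℝ) * ((m : ℝ) - m0)| = 2 * |((m - m0 : ℤ) : ℝ)| := by
        rw [abs_mul, abs_of_pos (by norm_num : (0 : ℝ) < 2)]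
        push_cast
        rfl
      rw [← h6, h7] at h8
      by_cases h9 : m - m0 = 0
      · rw [h9] at h8
        simp at h8
        linarith
      · have h10 : (1 : ℝ) ≤ |((m - m0 : ℤ) : ℝ)| := by exact_mod_cast Int.one_le_abs h9
        linarith
    have h4 := hsign _ hne
    have h5 : s * (th0 (q n).1 - th0 z0) =
        2 * Real.pi * (s * ((m : ℝ) - m0)) - Real.pi * (1 / ((n : ℝ) + 1)) := by
      rw [hm, hm0]
      have hss : s * s = 1 := by rcases hs with rfl | rfl <;> norm_num
      have : s * (Real.pi * (-s / ((n : ℝ) + 1))) = - (s * s) * (Real.pi * (1 / ((n : ℝ) + 1))) := by ring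
      calc s * (Real.pi + Real.pi * (-s / ((n : ℝ) + 1)) + m * (2 * Real.pi) - (Real.pi + m0 * (2 * Real.pi)))
          = s * (Real.pi * (-s / ((n : ℝ) + 1))) + 2 * Real.pi * (s * ((m : ℝ) - m0)) := by ring
        _ = _ := by rw [this, hss]; ring
    rw [h5] at h4 ⊢
    have h6 : (0 : ℝ) < s * ((m : ℝ) - m0) := by
      by_contra h7
      have h8 := mul_nonneg (by positivity : (0 : ℝ) ≤ 2 * Real.pi) (neg_nonneg.2 (not_lt.1 h7))
      have h9 := mul_pos hpi hn0
      linarith
    have h7 : (1 : ℝ) ≤ s * ((m : ℝ) - m0) := by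
      rcases hs with rfl | rfl
      · rw [one_mul] at h6 ⊢
        have h8 : (0 : ℝ) < ((m - m0 : ℤ) : ℝ) := by push_cast; exact h6
        have h9 : 0 < m - m0 := by exact_mod_cast h8
        have h10 : 1 ≤ m - m0 := h9
        have h11 : (1 : ℝ) ≤ ((m - m0 : ℤ) : ℝ) := by exact_mod_cast h10
        push_cast at h11
        exact h11
      · have h8 : (0 : ℝ) < ((m0 - m : ℤ) : ℝ) := by push_cast; linarith
        have h9 : 0 < m0 - m := by exact_mod_cast h8
        have h10 : 1 ≤ m0 - m := h9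
        have h11 : (1 : ℝ) ≤ ((m0 - m : ℤ) : ℝ) := by exact_mod_cast h10
        push_cast at h11
        linarith
    have h8 := mul_le_mul_of_nonneg_left h7 (by positivity : (0 : ℝ) ≤ 2 * Real.pi)
    have h9 := mul_le_mul_of_nonneg_left hn1 hpi.le
    linarith
  have h2 := ge_of_tendsto' hlim3 fun n => hbig (g n)
  linarith

end Pool.Agent.W5h51.OS.Gen
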