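import Pool.Agent.W5h51.OS.Defs3
import Pool.Agent.W5h51.OS.PushM

/-! (N2) the curve is null-homologous -/

set_option autoImplicit false

open Topology Set

namespace Pool.Agent.W5h51.OS

namespace N2

theorem AA_cont : Continuous AA :=
  Circle.exp.continuous.comp (continuous_const.add (continuous_const.mul Real.continuous_arcsin))

theorem AA_re {s : ℝ} (h : |s| ≤ 1) : (AA s : ℂ).re = 2 * s ^ 2 - 1 := by
  have h1 := abs_le.mp h
  unfold AA
  rw [Circle.coe_exp, Complex.exp_ofReal_mul_I_re, Real.cos_add, Real.cos_pi, Real.sin_pi,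
    Real.cos_two_mul, Real.cos_sq', Real.sin_arcsin h1.1 h1.2]
  ring

theorem AA_one : AA 1 = 1 := by
  unfold AA
  rw [Real.arcsin_one, show Real.pi + 2 * (Real.pi / 2) = 2 * Real.pi by ring,
    Circle.exp_two_pi]

theorem AA_neg_one : AA (-1) = 1 := by
  unfold AA
  rw [Real.arcsin_neg_one, show Real.pi + 2 * (-(Real.pi / 2)) = 0 by ring, Circle.exp_zero]

theorem csq (z : Circle) : (z : ℂ).re ^ 2 + (z : ℂ).im ^ 2 = 1 := by
  have := Circle.normSq_coe z
  rw [Complex.normSq_apply] at this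
  nlinarith

theorem cre : Continuous fun z : Circle => (z : ℂ).re :=
  Complex.continuous_re.comp continuous_subtype_val

theorem cim : Continuous fun z : Circle => (z : ℂ).im :=
  Complex.continuous_im.comp continuous_subtype_val

/-- the sup norm -/
noncomputable def Mx (z : Circle) : ℝ := max |(z : ℂ).re| |(z : ℂ).im|

theorem Mx_cont : Continuous Mx := cre.abs.max cim.abs

theorem re_le (z : Circle) : |(z : ℂ).re| ≤ Mx z := le_max_left _ _

theorem im_le (z : Circle) : |(z : ℂ).im| ≤ Mx z := le_max_right _ _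

theorem Mx_nonneg (z : Circle) : 0 ≤ Mx z := (abs_nonneg _).trans (re_le z)

theorem Mx_half (z : Circle) : 1 / 2 ≤ Mx z ^ 2 := by
  have h1 := sq_le_sq' (by linarith [abs_nonneg (z : ℂ).re, Mx_nonneg z]) (re_le z)
  have h2 := sq_le_sq' (by linarith [abs_nonneg (z : ℂ).im, Mx_nonneg z]) (im_le z)
  rw [sq_abs] at h1 h2
  have := csq z
  linarith

theorem Mx_pos (z : Circle) : 0 < Mx z := by
  rcases (Mx_nonneg z).eq_or_lt with h | h
  · have := Mx_half z
    rw [← h] at this
    norm_num at this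
  · exact h

theorem Mx_le (z : Circle) : Mx z ≤ 1 := by
  have h := csq z
  refine max_le ?_ ?_
  · rw [abs_le]; constructor <;> nlinarith [sq_nonneg (z : ℂ).im]
  · rw [abs_le]; constructor <;> nlinarith [sq_nonneg (z : ℂ).re]

/-- radius -/
noncomputable def rdd (s : ℝ) (z : Circle) : ℝ := (1 - s) * √(1 / 2) + s / Mx z

theorem sqrt_half_le : √(1 / 2 : ℝ) ≤ 1 := by
  rw [Real.sqrt_le_one]; norm_num

theorem rad_ge {s : ℝ} (h0 : 0 ≤ s) (h1 : s ≤ 1) (z : Circle) : √(1 / 2) ≤ rdd s z := by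
  have h2 : s ≤ s / Mx z := by
    rw [le_div_iff₀ (Mx_pos z)]
    nlinarith [Mx_le z]
  have h3 : s * √(1 / 2 : ℝ) ≤ s := by nlinarith [sqrt_half_le]
  unfold rdd
  linarith

theorem rad_sq {s : ℝ} (h0 : 0 ≤ s) (h1 : s ≤ 1) (z : Circle) : 1 / 2 ≤ rdd s z ^ 2 := by
  have h2 := rad_ge h0 h1 z
  have h3 : (√(1 / 2 : ℝ)) ^ 2 = 1 / 2 := Real.sq_sqrt (by norm_num)
  have h4 : (0:ℝ) ≤ √(1 / 2) := Real.sqrt_nonneg _
  nlinarith

theorem rad_mul {s : ℝ} (h0 : 0 ≤ s) (h1 : s ≤ 1) (z : Circle) : rdd s z * Mx z ≤ 1 := by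
  have hM := Mx_pos z
  have h2 : s / Mx z * Mx z = s := by field_simp
  have h3 : √(1 / 2 : ℝ) * Mx z ≤ 1 :=
    mul_le_one₀ sqrt_half_le (Mx_nonneg z) (Mx_le z)
  have h4 : (1 - s) * (√(1 / 2 : ℝ) * Mx z) ≤ (1 - s) * 1 :=
    mul_le_mul_of_nonneg_left h3 (by linarith)
  unfold rdd
  rw [add_mul, h2]
  linarith

theorem rad_nonneg {s : ℝ} (h0 : 0 ≤ s) (h1 : s ≤ 1) (z : Circle) : 0 ≤ rdd s z :=
  (Real.sqrt_nonneg _).trans (rad_ge h0 h1 z)

theorem bd_re {s : ℝ} (h0 : 0 ≤ s) (h1 : s ≤ 1) (z : Circle) : |rdd s z * (z : ℂ).re| ≤ 1 := by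
  rw [abs_mul, abs_of_nonneg (rad_nonneg h0 h1 z)]
  exact (mul_le_mul_of_nonneg_left (re_le z) (rad_nonneg h0 h1 z)).trans (rad_mul h0 h1 z)

theorem bd_im {s : ℝ} (h0 : 0 ≤ s) (h1 : s ≤ 1) (z : Circle) : |rdd s z * (z : ℂ).im| ≤ 1 := by
  rw [abs_mul, abs_of_nonneg (rad_nonneg h0 h1 z)]
  exact (mul_le_mul_of_nonneg_left (im_le z) (rad_nonneg h0 h1 z)).trans (rad_mul h0 h1 z)

/-- the point -/
noncomputable def pt (s : ℝ) (z : Circle) : Circle × Circle × ℝ :=
  (AA (rdd s z * (z : ℂ).re), AA (rdd s z * (z : ℂ).im), √(2 * rdd s z ^ 2 - 1))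

theorem pt_mem {s : ℝ} (h0 : 0 ≤ s) (h1 : s ≤ 1) (z : Circle) :
    (pt s z).2.2 ^ 2 = 1 + ((pt s z).1 : ℂ).re + ((pt s z).2.1 : ℂ).re := by
  unfold pt
  simp only
  rw [AA_re (bd_re h0 h1 z), AA_re (bd_im h0 h1 z),
    Real.sq_sqrt (by linarith [rad_sq h0 h1 z])]
  have := csq z
  linear_combination (-2 * rdd s z ^ 2) * this

theorem rad_cont : Continuous fun x : unitInterval × Circle => rdd x.1 x.2 := by
  unfold rdd
  have h1 : Continuous fun x : unitInterval × Circle => (x.1 : ℝ) :=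
    continuous_subtype_val.comp continuous_fst
  exact ((continuous_const.sub h1).mul continuous_const).add
    (h1.div (Mx_cont.comp continuous_snd) fun x => (Mx_pos x.2).ne')

theorem pt_cont : Continuous fun x : unitInterval × Circle => pt x.1 x.2 := by
  unfold pt
  have h := rad_cont
  refine (AA_cont.comp (h.mul (cre.comp continuous_snd))).prodMk
    ((AA_cont.comp (h.mul (cim.comp continuous_snd))).prodMk ?_)
  exact ((continuous_const.mul (h.pow 2)).sub continuous_const).sqrt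

/-- the homotopy -/
noncomputable def HH : C(unitInterval × Circle, GenusTwo) :=
  ⟨fun x => ⟨pt x.1 x.2, pt_mem x.1.2.1 x.1.2.2 x.2⟩, pt_cont.subtype_mk _⟩

/-- lifts of functions on the line -/
theorem lift_line (g : C(ℝ, Circle)) : ∃ th : C(ℝ, ℝ), ∀ y, Circle.exp (th y) = g y := by
  obtain ⟨e, he⟩ := Circle.exp_surjective (g 0)
  obtain ⟨th, ⟨_, h2⟩, _⟩ := Circle.isCoveringMap_exp.existsUnique_continuousMap_lifts g 0 e he
  exact ⟨th, fun y => congrFun h2 y⟩

open Gen.PushA in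
theorem side1 (y : ℝ) : √(1 + 2 * tau y ^ 2) ^ 2 =
    1 + ((1 : Circle) : ℂ).re + (AA (tau y) : ℂ).re := by
  rw [AA_re (tau_abs y), Real.sq_sqrt (by positivity)]
  simp
  try ring

open Gen.PushA in
theorem side2 (y : ℝ) : √(1 + 2 * tau y ^ 2) ^ 2 =
    1 + (AA (tau y) : ℂ).re + ((1 : Circle) : ℂ).re := by
  rw [AA_re (tau_abs y), Real.sq_sqrt (by positivity)]
  simp
  try ring

end N2

open N2 Gen.PushA in
/-- (N2) -/
theorem nhom2 : S_NHOM2 := by
  intro c hc F
  -- the two families of sides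
  have ht : Continuous fun y : ℝ => √(1 + 2 * tau y ^ 2) :=
    (continuous_const.add (continuous_const.mul (tau_cont.pow 2))).sqrt
  set P1 : C(ℝ, GenusTwo) := ⟨fun y => ⟨(1, AA (tau y), √(1 + 2 * tau y ^ 2)), side1 y⟩,
    (continuous_const.prodMk ((AA_cont.comp tau_cont).prodMk ht)).subtype_mk _⟩ with hP1
  set P2 : C(ℝ, GenusTwo) := ⟨fun y => ⟨(AA (tau y), 1, √(1 + 2 * tau y ^ 2)), side2 y⟩,
    ((AA_cont.comp tau_cont).prodMk (continuous_const.prodMk ht)).subtype_mk _⟩ with hP2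
  obtain ⟨ga, hga⟩ := lift_line (F.comp P1)
  obtain ⟨et, het⟩ := lift_line (F.comp P2)
  have hco : ∀ u : ℝ, |u| = 1 → P1 u = P1 1 ∧ P2 u = P1 1 := by
    intro u hu
    have t1 : tau 1 = 1 := tau_of_mem (by norm_num) (by norm_num)
    have tm : tau (-1) = -1 := tau_of_mem (by norm_num) (by norm_num)
    rcases (abs_eq (by norm_num : (0:ℝ) ≤ 1)).mp hu with rfl | rfl
    · refine ⟨rfl, Subtype.ext ?_⟩
      change (AA (tau 1), (1 : Circle), √(1 + 2 * tau 1 ^ 2)) =
        ((1 : Circle), AA (tau 1), √(1 + 2 * tau 1 ^ 2))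
      rw [t1, AA_one]
    · refine ⟨Subtype.ext ?_, Subtype.ext ?_⟩
      · change ((1 : Circle), AA (tau (-1)), √(1 + 2 * tau (-1) ^ 2)) =
          ((1 : Circle), AA (tau 1), √(1 + 2 * tau 1 ^ 2))
        rw [t1, tm, AA_one, AA_neg_one]; norm_num
      · change (AA (tau (-1)), (1 : Circle), √(1 + 2 * tau (-1) ^ 2)) =
          ((1 : Circle), AA (tau 1), √(1 + 2 * tau 1 ^ 2))
        rw [t1, tm, AA_one, AA_neg_one]; norm_num
  set q : C(Circle, GenusTwo) := HH.comp ⟨fun z => (1, z), by fun_prop⟩ with hq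
  have hcq : c.Homotopic q := by
    refine ⟨⟨HH, fun z => Subtype.ext ?_, fun z => rfl⟩⟩
    rw [hc z]
    change pt ((0 : unitInterval) : ℝ) z = loc2 z 0
    unfold pt loc2
    have hr : rdd ((0 : unitInterval) : ℝ) z = rr 0 := by
      unfold rdd rr
      simp
    rw [hr]
    have hs : √(2 * rr 0 ^ 2 - 1) = 0 := by
      unfold rr
      rw [Real.sq_sqrt (by norm_num)]
      norm_num
    rw [hs]
  set X : Circle → ℝ := fun z => rdd 1 z * (z : ℂ).re with hX
  set Y : Circle → ℝ := fun z => rdd 1 z * (z : ℂ).im with hY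
  have hrad : ∀ z, rdd 1 z = 1 / Mx z := fun z => by unfold rdd; simp
  have hXc : Continuous X := by
    have := rad_cont.comp (by fun_prop : Continuous fun z : Circle => ((1 : unitInterval), z))
    exact (this : Continuous fun z => rdd ((1 : unitInterval) : ℝ) z).mul cre
  have hYc : Continuous Y := by
    have := rad_cont.comp (by fun_prop : Continuous fun z : Circle => ((1 : unitInterval), z))
    exact (this : Continuous fun z => rdd ((1 : unitInterval) : ℝ) z).mul cim
  have hXY : ∀ z, X z ^ 2 + Y z ^ 2 = rdd 1 z ^ 2 := fun z => by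
    rw [hX, hY]; simp only
    linear_combination (rdd 1 z ^ 2) * csq z
  obtain ⟨th, hth⟩ : ∃ th : C(Circle, ℝ), ∀ z, Circle.exp (th z) = F (q z) := by
    refine ⟨⟨fun z => ga (Y z) + et (X z) - ga 1, ((ga.continuous.comp hYc).add
      (et.continuous.comp hXc)).sub continuous_const⟩, fun z => ?_⟩
    change Circle.exp (ga (Y z) + et (X z) - ga 1) = F (q z)
    rw [Circle.exp_sub, Circle.exp_add, hga, het, hga]
    change F (P1 (Y z)) * F (P2 (X z)) / F (P1 1) = F (q z)
    have bx : |X z| ≤ 1 := bd_re zero_le_one le_rfl z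
    have by' : |Y z| ≤ 1 := bd_im zero_le_one le_rfl z
    have tx : tau (X z) = X z := tau_of_mem (abs_le.mp bx).1 (abs_le.mp bx).2
    have ty : tau (Y z) = Y z := tau_of_mem (abs_le.mp by').1 (abs_le.mp by').2
    have hM := Mx_pos z
    have hqz : (q z : Circle × Circle × ℝ) = (AA (X z), AA (Y z), √(2 * rdd 1 z ^ 2 - 1)) := rfl
    rcases le_total |(z : ℂ).im| |(z : ℂ).re| with h | h
    · have hx1 : |X z| = 1 := by
        rw [hX]; simp only
        rw [hrad, abs_mul, abs_of_pos (by positivity)]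
        unfold Mx
        rw [max_eq_left h]
        have : |(z : ℂ).re| ≠ 0 := by
          have e : Mx z = |(z : ℂ).re| := max_eq_left h
          rw [← e]; exact hM.ne'
        field_simp
      have hxs : X z ^ 2 = 1 := by rw [← sq_abs, hx1]; norm_num
      have hAx : AA (X z) = 1 := by
        rcases (abs_eq (by norm_num : (0:ℝ) ≤ 1)).mp hx1 with h | h
        · rw [h, AA_one]
        · rw [h, AA_neg_one]
      rw [(hco _ hx1).2, mul_div_cancel_right]
      congr 1
      refine Subtype.ext ?_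
      rw [hqz]
      change ((1 : Circle), AA (tau (Y z)), √(1 + 2 * tau (Y z) ^ 2)) = _
      rw [ty, hAx, ← hXY z, hxs]
      congr 3
      ring
    · have hy1 : |Y z| = 1 := by
        rw [hY]; simp only
        rw [hrad, abs_mul, abs_of_pos (by positivity)]
        unfold Mx
        rw [max_eq_right h]
        have : |(z : ℂ).im| ≠ 0 := by
          have e : Mx z = |(z : ℂ).im| := max_eq_right h
          rw [← e]; exact hM.ne'
        field_simp
      have hys : Y z ^ 2 = 1 := by rw [← sq_abs, hy1]; norm_num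
      have hAy : AA (Y z) = 1 := by
        rcases (abs_eq (by norm_num : (0:ℝ) ≤ 1)).mp hy1 with h | h
        · rw [h, AA_one]
        · rw [h, AA_neg_one]
      rw [(hco _ hy1).1, mul_div_cancel_left]
      congr 1
      refine Subtype.ext ?_
      rw [hqz]
      change (AA (tau (X z)), (1 : Circle), √(1 + 2 * tau (X z) ^ 2)) = _
      rw [tx, hAy, ← hXY z, hys]
      congr 3
      ring
  exact lift_hom F hcq.symm th hth

end Pool.Agent.W5h51.OS
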