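import Pool.Agent.W5h51.OS.Defs

set_option autoImplicit false
set_option maxHeartbeats 400000

open Topology Set

namespace Pool.Agent.W5h51.OS

namespace Collar

theorem rad_gt (t : ℝ) : Real.pi / 2 < rad t := by
  have h := Real.neg_pi_div_two_lt_arctan t
  have h2 := Real.pi_lt_d2
  unfold rad
  linarith

theorem rad_lt (t : ℝ) : rad t < Real.pi := by
  have h := Real.arctan_lt_pi_div_two t
  have h2 := Real.pi_gt_three
  unfold rad
  linarith

theorem rad_pos (t : ℝ) : 0 < rad t := by
  have h := rad_gt t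
  have h2 := Real.pi_pos
  linarith

theorem rad_mono : StrictMono rad := by
  intro a b h
  have := Real.arctan_strictMono h
  unfold rad
  linarith

theorem rad_cont : Continuous rad := by
  unfold rad
  exact continuous_const.add (Real.continuous_arctan.div_const 4)

/-- the local chart of the torus -/
noncomputable def E (u : ℂ) : Torus := (Circle.exp (Real.pi / 2 + u.re), Circle.exp u.im)

theorem E_open : IsOpenMap E := by
  have h1 : IsOpenMap (fun x : ℝ => Circle.exp (Real.pi / 2 + x)) :=
    isLocalHomeomorph_circleExp.isOpenMap.comp (Homeomorph.addLeft (Real.pi / 2)).isOpenMap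
  exact (h1.prodMap isLocalHomeomorph_circleExp.isOpenMap).comp
    Complex.equivRealProdCLM.toHomeomorph.isOpenMap

theorem exp_inj_aux {c a b : ℝ} (ha : |a| < Real.pi) (hb : |b| < Real.pi)
    (h : Circle.exp (c + a) = Circle.exp (c + b)) : a = b := by
  rw [Circle.exp_eq_exp] at h
  obtain ⟨m, hm⟩ := h
  rw [abs_lt] at ha hb
  have hp := Real.pi_pos
  have h1 : (m : ℝ) * (2 * Real.pi) < 1 * (2 * Real.pi) := by linarith
  have h2 : (-1 : ℝ) * (2 * Real.pi) < (m : ℝ) * (2 * Real.pi) := by linarith
  have h3 : (m : ℝ) < 1 := lt_of_mul_lt_mul_right h1 (by positivity)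
  have h4 : (-1 : ℝ) < m := lt_of_mul_lt_mul_right h2 (by positivity)
  have h5 : m = 0 := by
    have h3' : m < 1 := by exact_mod_cast h3
    have h4' : -1 < m := by exact_mod_cast h4
    omega
  rw [h5] at hm
  simp only [Int.cast_zero, zero_mul, add_zero] at hm
  linarith

theorem E_inj {u v : ℂ} (hu : ‖u‖ < Real.pi) (hv : ‖v‖ < Real.pi) (h : E u = E v) : u = v := by
  unfold E at h
  rw [Prod.mk.injEq] at h
  apply Complex.ext
  · exact exp_inj_aux ((Complex.abs_re_le_norm u).trans_lt hu)
      ((Complex.abs_re_le_norm v).trans_lt hv) h.1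
  · refine exp_inj_aux (c := 0) ((Complex.abs_im_le_norm u).trans_lt hu)
      ((Complex.abs_im_le_norm v).trans_lt hv) ?_
    rw [zero_add, zero_add]
    exact h.2

/-- polar coordinates -/
noncomputable def psi (x : Circle × ℝ) : ℂ := (rad x.2 : ℂ) * (x.1 : ℂ)

theorem loc_eq (z : Circle) (t : ℝ) : loc z t = E (psi (z, t)) := by
  unfold loc E psi
  simp

theorem norm_psi (x : Circle × ℝ) : ‖psi x‖ = rad x.2 := by
  unfold psi
  rw [norm_mul, Circle.norm_coe, mul_one, Complex.norm_real, Real.norm_of_nonneg (rad_pos _).le]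

theorem psi_inj : Function.Injective psi := by
  rintro ⟨z, t⟩ ⟨w, s⟩ h
  have h1 : rad t = rad s := by
    have := congrArg norm h
    rwa [norm_psi, norm_psi] at this
  have h2 : t = s := rad_mono.injective h1
  subst h2
  have h3 : ((rad t : ℝ) : ℂ) ≠ 0 := by
    exact_mod_cast (rad_pos t).ne'
  unfold psi at h
  have h4 : (z : ℂ) = (w : ℂ) := mul_left_cancel₀ h3 h
  rw [Prod.mk.injEq]
  exact ⟨Circle.ext h4, rfl⟩

theorem isOpenMap_of_strictMono {f : ℝ → ℝ} (hf : StrictMono f) (hc : Continuous f) :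
    IsOpenMap f := by
  intro U hU
  rw [isOpen_iff_mem_nhds]
  rintro _ ⟨x, hx, rfl⟩
  obtain ⟨ε, hε, h⟩ := Metric.isOpen_iff.1 hU x hx
  rw [Real.ball_eq_Ioo] at h
  refine Filter.mem_of_superset (Ioo_mem_nhds (hf (show x - ε < x by linarith))
    (hf (show x < x + ε by linarith))) ?_
  exact (intermediate_value_Ioo (by linarith) hc.continuousOn).trans (image_mono h)

theorem psi_cont : Continuous psi := by
  unfold psi
  have h : Continuous (fun z : Circle => (z : ℂ)) := continuous_subtype_val
  exact (Complex.continuous_ofReal.comp (rad_cont.comp continuous_snd)).mul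
    (h.comp continuous_fst)

theorem psi_open : IsOpenMap psi := by
  have hq1 : Continuous (Prod.map Circle.exp (id : ℝ → ℝ)) :=
    Circle.exp.continuous.prodMap continuous_id
  have hq2 : Function.Surjective (Prod.map Circle.exp (id : ℝ → ℝ)) :=
    Circle.exp_surjective.prodMap Function.surjective_id
  suffices hs : IsOpenMap (psi ∘ Prod.map Circle.exp (id : ℝ → ℝ)) by
    intro U hU
    have h := hs _ (hU.preimage hq1)
    rw [image_comp, image_preimage_eq _ hq2] at h
    exact h
  have hl : IsOpenMap (fun t : ℝ => Real.log (rad t)) := by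
    refine isOpenMap_of_strictMono (fun a b h => Real.log_lt_log (rad_pos a) (rad_mono h)) ?_
    exact rad_cont.log fun t => (rad_pos t).ne'
  have h2 : IsOpenMap (Prod.map (fun t : ℝ => Real.log (rad t)) (id : ℝ → ℝ)) :=
    hl.prodMap IsOpenMap.id
  have h3 : IsOpenMap (fun x : ℝ × ℝ => ((Real.log (rad x.2), x.1) : ℝ × ℝ)) := by
    have h := h2.comp (Homeomorph.prodComm ℝ ℝ).isOpenMap
    have e : (Prod.map (fun t : ℝ => Real.log (rad t)) (id : ℝ → ℝ)) ∘
        ⇑(Homeomorph.prodComm ℝ ℝ) = fun x : ℝ × ℝ => ((Real.log (rad x.2), x.1) : ℝ × ℝ) := by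
      funext x
      rfl
    rwa [e] at h
  have h4 : IsOpenMap (fun p : ℝ × ℝ => Complex.equivRealProdCLM.symm p) :=
    Complex.equivRealProdCLM.symm.toHomeomorph.isOpenMap
  have h5 := h4.comp h3
  have h1 := Complex.isOpenMap_exp.comp h5
  have e : (psi ∘ Prod.map Circle.exp (id : ℝ → ℝ)) = Complex.exp ∘
      ((fun p : ℝ × ℝ => Complex.equivRealProdCLM.symm p) ∘
        fun x : ℝ × ℝ => ((Real.log (rad x.2), x.1) : ℝ × ℝ)) := by
    funext x
    have e1 : (psi ∘ Prod.map Circle.exp (id : ℝ → ℝ)) x =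
        (rad x.2 : ℂ) * ((Circle.exp x.1 : Circle) : ℂ) := rfl
    rw [e1, Function.comp_apply, Function.comp_apply, Complex.equivRealProdCLM_symm_apply]
    simp only
    rw [Complex.exp_add, Circle.coe_exp, ← Complex.ofReal_exp, Real.exp_log (rad_pos _)]
  rw [e]
  exact h1

theorem loc_cont : Continuous (fun x : Circle × ℝ => loc x.1 x.2) := by
  have h : (fun x : Circle × ℝ => loc x.1 x.2) = fun x => E (psi x) := by
    funext x
    exact loc_eq x.1 x.2
  rw [h]
  have hE : Continuous (fun u : ℂ =>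
      ((Circle.exp (Real.pi / 2 + u.re), Circle.exp u.im) : Torus)) :=
    (Circle.exp.continuous.comp (continuous_const.add Complex.continuous_re)).prodMk
    (Circle.exp.continuous.comp Complex.continuous_im)
  exact hE.comp psi_cont

theorem exp_im (a : ℝ) : ((Circle.exp a : Circle) : ℂ).im = Real.sin a := by
  rw [Circle.coe_exp, Complex.exp_ofReal_mul_I_im]

theorem not_four (z : Circle) (t : ℝ) : loc z t ∉ four := by
  rintro ⟨h1, h2⟩
  unfold loc at h1 h2
  simp only at h1 h2
  rw [exp_im] at h1 h2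
  have hr := rad_pos t
  have hr1 := rad_gt t
  have hr2 := rad_lt t
  have hz : (z : ℂ).re ^ 2 + (z : ℂ).im ^ 2 = 1 := by
    have := Circle.normSq_coe z
    rw [Complex.normSq_apply] at this
    linarith [sq ((z : ℂ).re), sq ((z : ℂ).im)]
  have him : |(z : ℂ).im| ≤ 1 := by
    rw [abs_le]
    constructor <;> nlinarith [sq_nonneg (z : ℂ).re]
  have h3 : (z : ℂ).im = 0 := by
    have h4 : rad t * (z : ℂ).im = 0 := by
      rw [abs_le] at him
      refine (Real.sin_eq_zero_iff_of_lt_of_lt ?_ ?_).1 h2
      · nlinarith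
      · nlinarith
    rcases mul_eq_zero.1 h4 with h | h
    · exact absurd h hr.ne'
    · exact h
  rw [h3] at hz
  have h5 : Real.cos (rad t * (z : ℂ).re) = 0 := by
    rw [add_comm, Real.sin_add_pi_div_two] at h1
    exact h1
  have h6 : Real.cos (rad t) = 0 := by
    have h7 : (z : ℂ).re = 1 ∨ (z : ℂ).re = -1 := by
      have : ((z : ℂ).re - 1) * ((z : ℂ).re + 1) = 0 := by linear_combination hz
      rcases mul_eq_zero.1 this with h | h
      · left; linarith
      · right; linarith
    rcases h7 with h | h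
    · rwa [h, mul_one] at h5
    · rwa [h, mul_neg, mul_one, Real.cos_neg] at h5
  have h8 := Real.cos_neg_of_pi_div_two_lt_of_lt hr1 (by linarith [Real.pi_pos])
  linarith

end Collar

open Collar

theorem collar : S_COLLAR := by
  refine ⟨not_four, ?_⟩
  refine IsOpenEmbedding.of_continuous_injective_isOpenMap (loc_cont.subtype_mk _) ?_ ?_
  · intro x y h
    have h1 : loc x.1 x.2 = loc y.1 y.2 := congrArg Subtype.val h
    rw [loc_eq, loc_eq] at h1
    refine psi_inj (E_inj ?_ ?_ h1)
    · rw [norm_psi]; exact rad_lt _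
    · rw [norm_psi]; exact rad_lt _
  · intro U hU
    have h1 : IsOpen ((fun x => E (psi x)) '' U) := (E_open.comp psi_open) U hU
    have h2 : ((fun x : Circle × ℝ => (⟨loc x.1 x.2, not_four x.1 x.2⟩ : Punctured four)) '' U) =
        Subtype.val ⁻¹' ((fun x => E (psi x)) '' U) := by
      ext y
      constructor
      · rintro ⟨x, hx, rfl⟩
        exact ⟨x, hx, (loc_eq x.1 x.2).symm⟩
      · rintro ⟨x, hx, h⟩
        exact ⟨x, hx, Subtype.ext ((loc_eq x.1 x.2).trans h)⟩
    rw [h2]
    exact h1.preimage continuous_subtype_val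

end Pool.Agent.W5h51.OS
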