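import Mathlib

open Topology Set

namespace Pool.Agent.W5h51.OS

variable {M : Type} [TopologicalSpace M]

/-- The surface `M` with the punctures `P` removed. -/
abbrev Punctured (P : Set M) : Type := {x : M // x ∉ P}

/-- Inversion of the circle (reversal of the orientation of a closed curve). -/
noncomputable def rev : C(Circle, Circle) := ⟨fun z => z⁻¹, continuous_inv⟩

/-- A closed curve in `X` is simple closed: it is the core of an open annulus embedded in `X`. -/
def IsSimpleClosed {X : Type} [TopologicalSpace X] (γ : C(Circle, X)) : Prop :=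
  ∃ Φ : Circle × ℝ → X, IsOpenEmbedding Φ ∧ ∀ z, Φ (z, 0) = γ z

/-- `γ` is homotopic to a point. -/
def NullHomotopic {X : Type} [TopologicalSpace X] (γ : C(Circle, X)) : Prop :=
  ∃ x : X, γ.Homotopic (ContinuousMap.const Circle x)

/-- `γ` is homotopic into the puncture `p`: into each neighbourhood of `p`. -/
def HomotopicInto (P : Set M) (γ : C(Circle, Punctured P)) (p : M) : Prop :=
  ∀ W ∈ 𝓝 p, ∃ δ : C(Circle, Punctured P), γ.Homotopic δ ∧ ∀ z, ((δ z : Punctured P) : M) ∈ W

/-- Essential closed curves. -/
def Essential (P : Set M) (γ : C(Circle, Punctured P)) : Prop :=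
  ¬ NullHomotopic γ ∧ ∀ p ∈ P, ¬ HomotopicInto P γ p

/-- The essential simple closed curves on `M \ P`. -/
def Curve (P : Set M) : Type := {γ : C(Circle, Punctured P) // IsSimpleClosed γ ∧ Essential P γ}

/-- Homotopy of closed curves, regardless of orientation. -/
def SameClass {X : Type} [TopologicalSpace X] (γ δ : C(Circle, X)) : Prop :=
  γ.Homotopic δ ∨ γ.Homotopic (δ.comp rev)

theorem comp_rev_rev {X : Type} [TopologicalSpace X] (γ : C(Circle, X)) :
    (γ.comp rev).comp rev = γ := by
  ext z; simp [rev]

theorem SameClass.symm {X : Type} [TopologicalSpace X] {γ δ : C(Circle, X)} (h : SameClass γ δ) :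
    SameClass δ γ := by
  rcases h with h | h
  · exact Or.inl h.symm
  · refine Or.inr ?_
    have h1 : (γ.comp rev).Homotopic ((δ.comp rev).comp rev) :=
      ContinuousMap.Homotopic.comp h (ContinuousMap.Homotopic.refl rev)
    rw [comp_rev_rev] at h1
    exact h1.symm

theorem SameClass.trans {X : Type} [TopologicalSpace X] {γ δ ε : C(Circle, X)}
    (h : SameClass γ δ) (k : SameClass δ ε) : SameClass γ ε := by
  rcases h with h | h <;> rcases k with k | k
  · exact Or.inl (h.trans k)
  · exact Or.inr (h.trans k)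
  · exact Or.inr (h.trans (ContinuousMap.Homotopic.comp k (ContinuousMap.Homotopic.refl rev)))
  · have h1 : (δ.comp rev).Homotopic ((ε.comp rev).comp rev) :=
      ContinuousMap.Homotopic.comp k (ContinuousMap.Homotopic.refl rev)
    rw [comp_rev_rev] at h1
    exact Or.inl (h.trans h1)

instance curveSetoid (P : Set M) : Setoid (Curve P) where
  r γ δ := SameClass γ.1 δ.1
  iseqv := ⟨fun γ => Or.inl (ContinuousMap.Homotopic.refl _), fun h => h.symm, fun h k => h.trans k⟩

/-- Homotopy classes of essential simple closed curves. -/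
def CurveClass (P : Set M) : Type := Quotient (curveSetoid P)

/-- Geometric intersection number. -/
noncomputable def geomInt {P : Set M} (a b : CurveClass P) : ℕ∞ :=
  sInf {n : ℕ∞ | ∃ γ δ : Curve P, (⟦γ⟧ : CurveClass P) = a ∧ (⟦δ⟧ : CurveClass P) = b ∧
    (range γ.1 ∩ range δ.1).encard = n}

/-- 1-systems. -/
def IsOneSystem {P : Set M} (Γ : Set (CurveClass P)) : Prop :=
  ∀ a ∈ Γ, ∀ b ∈ Γ, geomInt a b ≤ 1

/-- 1-systems maximal with respect to inclusion. -/
def IsMaximalOneSystem {P : Set M} (Γ : Set (CurveClass P)) : Prop :=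
  Maximal (fun Δ : Set (CurveClass P) => IsOneSystem Δ) Γ

/-- A realization of `Γ` by curves in pairwise minimal position (a locally finite family). -/
structure Realization {P : Set M} (Γ : Set (CurveClass P)) where
  curve : Γ → Curve P
  mem_class : ∀ a : Γ, (⟦curve a⟧ : CurveClass P) = a.1
  minimal : ∀ a b : Γ, a ≠ b → (range (curve a).1 ∩ range (curve b).1).encard = geomInt a.1 b.1
  locallyFinite : LocallyFinite fun a : Γ => range (curve a).1

/-- The complement of the curves of a realization. -/
def Realization.compl {P : Set M} {Γ : Set (CurveClass P)} (R : Realization Γ) :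
    Set (Punctured P) := (⋃ a : Γ, range (R.curve a).1)ᶜ

/-- `U` is an open disk. -/
def IsDisk {P : Set M} (U : Set (Punctured P)) : Prop := Nonempty (U ≃ₜ ℂ)

/-- `U` is a once-punctured disk: a puncture of the surface fills it in to an open disk. -/
def IsPuncturedDisk {P : Set M} (U : Set (Punctured P)) : Prop :=
  ∃ p ∈ P, Nonempty ((insert p (Subtype.val '' U) : Set M) ≃ₜ ℂ)

/-- `Γ` fills the surface. -/
def Fills {P : Set M} (Γ : Set (CurveClass P)) : Prop :=
  ∃ R : Realization Γ, ∀ x ∈ R.compl,
    IsDisk (connectedComponentIn R.compl x) ∨ IsPuncturedDisk (connectedComponentIn R.compl x)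

/-- The torus. -/
abbrev Torus : Type := Circle × Circle

/-- Four points of the torus: `(±1, ±1)`. -/
def four : Set Torus := {x | (x.1 : ℂ).im = 0 ∧ (x.2 : ℂ).im = 0}

/-- The inclusion of the punctured surface. -/
def incl (P : Set M) : C(Punctured P, M) := ⟨Subtype.val, continuous_subtype_val⟩

/-! ### Interface -/

/-- (D) push-off lemma. -/
def S_PUSH : Prop := ∀ (P : Set Torus) (Φ : Circle × ℝ → Punctured P) (_ : IsOpenEmbedding Φ)
  (c : C(Circle, Punctured P)) (_ : Function.Injective c) (_ : NullHomotopic ((incl P).comp c))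
  (_ : (range c ∩ range (fun z => Φ (z, 0))).encard ≤ 1),
  ∃ t : ℝ, Disjoint (range c) (range (fun z => Φ (z, t)))

/-- radius of the parallel curves -/
noncomputable def rad (t : ℝ) : ℝ := 2 + Real.arctan t / 4

/-- The curves `x = pi/2 + rad t cos a`, `y = rad t sin a` on the torus of the `(e^(ix), e^(iy))`. -/
noncomputable def loc (z : Circle) (t : ℝ) : Torus :=
  (Circle.exp (Real.pi / 2 + rad t * (z : ℂ).re), Circle.exp (rad t * (z : ℂ).im))

/-- (F) the collar of the curve `loc z 0`. -/
def S_COLLAR : Prop := ∃ h : ∀ z t, loc z t ∉ four,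
  IsOpenEmbedding (fun x : Circle × ℝ => (⟨loc x.1 x.2, h x.1 x.2⟩ : Punctured four))

/-- (E) the curve `loc z 0` is essential. -/
def S_ESS : Prop := ∀ c : C(Circle, Punctured four), (∀ z, (c z : Torus) = loc z 0) →
  Essential four c

/-- (G) the components next to a curve are neither disks nor once-punctured disks. -/
def S_NEXT : Prop := ∀ (P : Set Torus) (Φ : Circle × ℝ → Punctured P) (_ : IsOpenEmbedding Φ)
  (c : C(Circle, Punctured P)) (_ : ∀ z, Φ (z, 0) = c z) (_ : Essential P c)
  (K : Set (Punctured P)) (_ : IsClosed K) (_ : Disjoint (range c) K),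
  ∃ x ∈ (range c ∪ K)ᶜ, ¬ IsDisk (connectedComponentIn (range c ∪ K)ᶜ x) ∧
    ¬ IsPuncturedDisk (connectedComponentIn (range c ∪ K)ᶜ x)

end Pool.Agent.W5h51.OS
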