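import Pool.Agent.W5h51.OS.Defs

open Topology Set

namespace Pool.Agent.W5h51.OS

/-- `c` is null-homologous in the surface `M` (before the punctures are removed): each map
`M → S¹` has degree `0` on `c`. For a simple closed curve on an orientable surface this says that
it is separating. -/
def NullHomologous {M : Type} [TopologicalSpace M] {P : Set M} (c : C(Circle, Punctured P)) :
    Prop :=
  ∀ F : C(M, Circle), ∃ th : C(Circle, ℝ), ∀ z, Circle.exp (th z) = F ((c z : Punctured P) : M)

/-- The homotopy class of a curve. -/
def cls {M : Type} [TopologicalSpace M] {P : Set M} (c : Curve P) : CurveClass P :=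
  Quotient.mk (curveSetoid P) c

end Pool.Agent.W5h51.OS
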