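import Pool.Agent.W5h51.OS.Defs2

open Topology Set

namespace Pool.Agent.W5h51.OS

/-- The closed surface `t² = 1 + Re z + Re w` in `S¹ × S¹ × ℝ`: the double of the one-holed torus
`{1 + Re z + Re w ≥ 0}`, a closed orientable surface of genus two. -/
abbrev GenusTwo : Type :=
  {x : Circle × Circle × ℝ // x.2.2 ^ 2 = 1 + (x.1 : ℂ).re + (x.2.1 : ℂ).re}

/-- `AA s = exp (i (pi + 2 arcsin s))`, real part `2 s² - 1` for `|s| ≤ 1`. -/
noncomputable def AA (s : ℝ) : Circle := Circle.exp (Real.pi + 2 * Real.arcsin s)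

/-- radius -/
noncomputable def rr (t : ℝ) : ℝ := Real.sqrt ((1 + t ^ 2) / 2)

/-- the point of the surface over the direction `z` at height `t`, `|t| < 1` -/
noncomputable def loc2 (z : Circle) (t : ℝ) : Circle × Circle × ℝ :=
  (AA (rr t * (z : ℂ).re), AA (rr t * (z : ℂ).im), t)

/-- (C2) collar of the curve `loc2 z 0`, heights `arctan s / 2`. -/
def S_COLLAR2 : Prop := ∃ h : ∀ (z : Circle) (s : ℝ), (loc2 z (Real.arctan s / 2)).2.2 ^ 2 =
    1 + ((loc2 z (Real.arctan s / 2)).1 : ℂ).re + ((loc2 z (Real.arctan s / 2)).2.1 : ℂ).re,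
  IsOpenEmbedding (fun x : Circle × ℝ =>
    (⟨loc2 x.1 (Real.arctan x.2 / 2), h x.1 x.2⟩ : GenusTwo))

/-- (E2) the curve is not null-homotopic. -/
def S_ESS2 : Prop := ∀ c : C(Circle, GenusTwo), (∀ z, (c z : Circle × Circle × ℝ) = loc2 z 0) →
  ¬ NullHomotopic c

/-- (N2) the curve is null-homologous. -/
def S_NHOM2 : Prop := ∀ c : C(Circle, GenusTwo), (∀ z, (c z : Circle × Circle × ℝ) = loc2 z 0) →
  ∀ F : C(GenusTwo, Circle), ∃ th : C(Circle, ℝ), ∀ z, Circle.exp (th z) = F (c z)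

end Pool.Agent.W5h51.OS
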