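import Pool.Agent.W5h51.OS.Defs

/-! (NEXT) the components next to an essential curve are neither disks nor punctured disks -/

set_option autoImplicit false

open Topology Set

namespace Pool.Agent.W5h51.OS.Gen

variable {M : Type} [TopologicalSpace M]

lemma next_disk {P : Set M} {U : Set (Punctured P)} (g : C(Circle, Punctured P))
    (hg : ∀ z, g z ∈ U) (hU : IsDisk U) : NullHomotopic g := by
  obtain ⟨e⟩ := hU
  have : ContractibleSpace U := e.contractibleSpace
  let g' : C(Circle, U) := ⟨fun z => ⟨g z, hg z⟩, g.continuous.subtype_mk _⟩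
  let i : C(U, Punctured P) := ⟨Subtype.val, continuous_subtype_val⟩
  obtain ⟨y, hy⟩ := id_nullhomotopic U
  refine ⟨y.1, ?_⟩
  have h1 := (ContinuousMap.Homotopic.refl i).comp (hy.comp (ContinuousMap.Homotopic.refl g'))
  have e1 : i.comp ((ContinuousMap.id U).comp g') = g := ContinuousMap.ext fun _ => rfl
  have e2 : i.comp ((ContinuousMap.const U y).comp g') = ContinuousMap.const Circle y.1 :=
    ContinuousMap.ext fun _ => rfl
  rw [e1, e2] at h1
  exact h1

lemma next_pdisk {P : Set M} {U : Set (Punctured P)} (g : C(Circle, Punctured P))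
    (hg : ∀ z, g z ∈ U) (hU : IsPuncturedDisk U) : ∃ p ∈ P, HomotopicInto P g p := by
  obtain ⟨p, hp, ⟨e⟩⟩ := hU
  refine ⟨p, hp, fun W hW => ?_⟩
  let p' : (insert p (Subtype.val '' U) : Set M) := ⟨p, mem_insert _ _⟩
  have hgD : ∀ z, ((g z : Punctured P) : M) ∈ (insert p (Subtype.val '' U) : Set M) :=
    fun z => mem_insert_of_mem _ ⟨g z, hg z, rfl⟩
  let g' : Circle → (insert p (Subtype.val '' U) : Set M) := fun z => ⟨g z, hgD z⟩
  have hg' : Continuous g' := (continuous_subtype_val.comp g.continuous).subtype_mk _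
  let q : ℂ := e p'
  let w : Circle → ℂ := fun z => e (g' z)
  have hw : Continuous w := e.continuous.comp hg'
  have hwq : ∀ z, w z ≠ q := by
    intro z h
    have h1 : g' z = p' := e.injective h
    have h2 : ((g z : Punctured P) : M) = p := congrArg Subtype.val h1
    exact (g z).2 (h2 ▸ hp)
  have hnot : ∀ y : ℂ, y ≠ q →
      ((e.symm y : (insert p (Subtype.val '' U) : Set M)) : M) ∉ P := by
    intro y hy
    have h1 : e.symm y ≠ p' := fun h => hy (by
      rw [← e.apply_symm_apply y, h])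
    rcases (e.symm y).2 with h2 | ⟨u, hu, h3⟩
    · exact absurd (Subtype.ext h2) h1
    · rw [← h3]
      exact u.2
  have hFq : ∀ s : ℝ, 0 < s → ∀ z, q + (s : ℂ) * (w z - q) ≠ q := by
    intro s hs z h
    have h1 : (s : ℂ) * (w z - q) = 0 := by
      calc (s : ℂ) * (w z - q) = (q + (s : ℂ) * (w z - q)) - q := by ring
        _ = 0 := by rw [h, sub_self]
    rcases mul_eq_zero.1 h1 with h2 | h2
    · exact hs.ne' (by exact_mod_cast h2)
    · exact hwq z (sub_eq_zero.1 h2)
  -- the radius
  have hpre : (fun y : ℂ => ((e.symm y : (insert p (Subtype.val '' U) : Set M)) : M)) ⁻¹' W ∈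
      𝓝 q := by
    have hc : Continuous
        (fun y : ℂ => ((e.symm y : (insert p (Subtype.val '' U) : Set M)) : M)) :=
      continuous_subtype_val.comp e.symm.continuous
    have h1 : ((e.symm q : (insert p (Subtype.val '' U) : Set M)) : M) = p := by
      have h2 : e.symm q = p' := e.symm_apply_apply p'
      rw [h2]
    exact hc.continuousAt.preimage_mem_nhds (by rw [h1]; exact hW)
  obtain ⟨r, hr, hball⟩ := Metric.mem_nhds_iff.1 hpre
  obtain ⟨R, hR⟩ := (isCompact_univ (X := Circle)).exists_bound_of_continuousOn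
    (f := fun z => w z - q) (hw.sub continuous_const).continuousOn
  have hR0 : 0 ≤ R := (norm_nonneg _).trans (hR 1 (mem_univ _))
  obtain ⟨s, hs0, hs1, hsr⟩ : ∃ s : ℝ, 0 < s ∧ s ≤ 1 ∧ s * R < r := by
    refine ⟨min 1 (r / (R + 1) / 2), lt_min one_pos (by positivity), min_le_left _ _, ?_⟩
    calc min 1 (r / (R + 1) / 2) * R ≤ r / (R + 1) / 2 * R := by
          gcongr
          exact min_le_right _ _
      _ = r * (R / (R + 1)) / 2 := by ring
      _ ≤ r * 1 / 2 := by
          gcongr
          rw [div_le_one (by linarith)]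
          linarith
      _ < r := by linarith
  have hpos : ∀ τ : unitInterval, 0 < 1 - (τ : ℝ) * (1 - s) := by
    intro τ
    have h1 := τ.2.1
    have h2 := τ.2.2
    nlinarith
  -- the curves
  let δ : C(Circle, Punctured P) :=
    ⟨fun z => ⟨((e.symm (q + (s : ℂ) * (w z - q)) :
      (insert p (Subtype.val '' U) : Set M)) : M), hnot _ (hFq s hs0 z)⟩, by
        apply Continuous.subtype_mk
        exact continuous_subtype_val.comp (e.symm.continuous.comp (by fun_prop))⟩
  refine ⟨δ, ⟨{
    toFun := fun x => ⟨((e.symm (q + ((1 - (x.1 : ℝ) * (1 - s) : ℝ) : ℂ) * (w x.2 - q)) :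
      (insert p (Subtype.val '' U) : Set M)) : M), hnot _ (hFq _ (hpos x.1) x.2)⟩
    continuous_toFun := by
      apply Continuous.subtype_mk
      exact continuous_subtype_val.comp (e.symm.continuous.comp (by fun_prop))
    map_zero_left := by
      intro z
      apply Subtype.ext
      have h1 : q + ((1 - ((0 : unitInterval) : ℝ) * (1 - s) : ℝ) : ℂ) * (w z - q) = w z := by
        rw [show (1 - ((0 : unitInterval) : ℝ) * (1 - s) : ℝ) = 1 by simp]
        push_cast
        ring
      have h2 : e.symm (w z) = g' z := e.symm_apply_apply (g' z)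
      show ((e.symm (q + ((1 - ((0 : unitInterval) : ℝ) * (1 - s) : ℝ) : ℂ) * (w z - q)) :
        (insert p (Subtype.val '' U) : Set M)) : M) = _
      rw [h1, h2]
    map_one_left := by
      intro z
      apply Subtype.ext
      show ((e.symm (q + ((1 - ((1 : unitInterval) : ℝ) * (1 - s) : ℝ) : ℂ) * (w z - q)) :
        (insert p (Subtype.val '' U) : Set M)) : M) = _
      rw [show (1 - ((1 : unitInterval) : ℝ) * (1 - s) : ℝ) = s by simp]
      rfl }⟩, fun z => ?_⟩
  have hmem : q + (s : ℂ) * (w z - q) ∈ Metric.ball q r := by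
    rw [Metric.mem_ball, dist_eq_norm]
    have e3 : q + (s : ℂ) * (w z - q) - q = (s : ℂ) * (w z - q) := by ring
    rw [e3, norm_mul, Complex.norm_real, Real.norm_of_nonneg hs0.le]
    calc s * ‖w z - q‖ ≤ s * R := by
          have := hR z (mem_univ _)
          gcongr
      _ < r := hsr
  exact hball hmem

/-- **(NEXT)** -/
theorem next {P : Set M} (Φ : Circle × ℝ → Punctured P) (hΦ : IsOpenEmbedding Φ)
    (c : C(Circle, Punctured P)) (hc : ∀ z, Φ (z, 0) = c z) (hess : Essential P c)
    (K : Set (Punctured P)) (hK : IsClosed K) (hdisj : Disjoint (range c) K) :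
    ∃ x ∈ (range c ∪ K)ᶜ, ¬ IsDisk (connectedComponentIn (range c ∪ K)ᶜ x) ∧
      ¬ IsPuncturedDisk (connectedComponentIn (range c ∪ K)ᶜ x) := by
  have hn : IsOpen (Φ ⁻¹' Kᶜ) := hK.isOpen_compl.preimage hΦ.continuous
  obtain ⟨u, v, hu, hv, huu, hvv, huv⟩ := generalized_tube_lemma
    (isCompact_univ (X := Circle)) (isCompact_singleton (x := (0:ℝ))) hn (by
      rintro ⟨z, t⟩ ⟨-, ht⟩
      have ht0 : t = 0 := ht
      subst ht0
      show Φ (z, 0) ∈ Kᶜ
      rw [hc]
      exact fun h => (Set.disjoint_left.1 hdisj) ⟨z, rfl⟩ h)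
  have h0v : (0:ℝ) ∈ v := hvv rfl
  obtain ⟨r, hr, hrv⟩ := Metric.isOpen_iff.1 hv 0 h0v
  set ε : ℝ := r / 2 with hε
  have hε0 : 0 < ε := by positivity
  have hεv : ∀ t : ℝ, 0 ≤ t → t ≤ ε → t ∈ v := by
    intro t h1 h2
    apply hrv
    rw [Metric.mem_ball, Real.dist_eq, sub_zero, abs_of_nonneg h1]
    linarith
  have hV : ∀ z : Circle, Φ (z, ε) ∈ (range c ∪ K)ᶜ := by
    rintro z (⟨z', hz'⟩ | h)
    · rw [← hc] at hz'
      have h1 := hΦ.injective hz'
      have h2 : (0:ℝ) = ε := congrArg Prod.snd h1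
      linarith
    · exact huv (show (z, ε) ∈ u ×ˢ v from ⟨huu (mem_univ _), hεv ε hε0.le le_rfl⟩) h
  let g : C(Circle, Punctured P) := ⟨fun z => Φ (z, ε), hΦ.continuous.comp (by fun_prop)⟩
  have hcg : c.Homotopic g := ⟨{
    toFun := fun x => Φ (x.2, (x.1 : ℝ) * ε)
    continuous_toFun := hΦ.continuous.comp (by fun_prop)
    map_zero_left := by
      intro z
      show Φ (z, ((0 : unitInterval) : ℝ) * ε) = _
      rw [show ((0 : unitInterval) : ℝ) * ε = 0 by simp, hc]
    map_one_left := by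
      intro z
      show Φ (z, ((1 : unitInterval) : ℝ) * ε) = _
      rw [show ((1 : unitInterval) : ℝ) * ε = ε by simp]
      rfl }⟩
  have hgU : ∀ z, g z ∈ connectedComponentIn (range c ∪ K)ᶜ (Φ (1, ε)) := by
    intro z
    have h1 : IsPreconnected (range g) := isPreconnected_range g.continuous
    have h2 : range g ⊆ (range c ∪ K)ᶜ := by
      rintro _ ⟨z', rfl⟩
      exact hV z'
    exact h1.subset_connectedComponentIn ⟨1, rfl⟩ h2 ⟨z, rfl⟩
  refine ⟨Φ (1, ε), hV 1, fun hd => ?_, fun hd => ?_⟩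
  · obtain ⟨y, hy⟩ := next_disk g hgU hd
    exact hess.1 ⟨y, hcg.trans hy⟩
  · obtain ⟨p, hp, hinto⟩ := next_pdisk g hgU hd
    refine hess.2 p hp fun W hW => ?_
    obtain ⟨δ, h1, h2⟩ := hinto W hW
    exact ⟨δ, hcg.trans h1, h2⟩

end Pool.Agent.W5h51.OS.Gen
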