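import Pool.Agent.W5h51.OS.PushM
import Pool.Agent.W5h51.OS.NextM
import Pool.Agent.W5h51.OS.Ess
import Pool.Agent.W5h51.OS.Collar

set_option autoImplicit false

open Topology Set

namespace Pool.Agent.W5h51.OS.Fin

variable {M : Type} [TopologicalSpace M]

theorem _root_.Pool.Agent.W5h51.OS.NullHomologous.of_sameClass [T2Space M] {P : Set M}
    {c d : C(Circle, Punctured P)} (hc : NullHomologous c) (h : SameClass d c) :
    NullHomologous d := by
  intro F
  rcases h with h | h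
  · obtain ⟨th, hth⟩ := hc F
    obtain ⟨th', h'⟩ := Gen.PushA.lift_hom F (γ := (incl P).comp c) (δ := (incl P).comp d)
      (ContinuousMap.Homotopic.comp (ContinuousMap.Homotopic.refl _) h.symm) th hth
    exact ⟨th', h'⟩
  · obtain ⟨th, hth⟩ := hc F
    obtain ⟨th', h'⟩ := Gen.PushA.lift_hom F (γ := (incl P).comp (c.comp rev))
      (δ := (incl P).comp d)
      (ContinuousMap.Homotopic.comp (ContinuousMap.Homotopic.refl _) h.symm) (th.comp rev)
      (fun z => hth _)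
    exact ⟨th', h'⟩

theorem nullHomologous_of_null [T2Space M] {P : Set M} (c : C(Circle, Punctured P))
    (h : NullHomotopic ((incl P).comp c)) : NullHomologous c := by
  intro F
  obtain ⟨x, hx⟩ := h
  obtain ⟨s, hs⟩ := Circle.exp_surjective (F x)
  obtain ⟨th', h'⟩ := Gen.PushA.lift_hom F hx.symm (ContinuousMap.const Circle s)
    (fun z => hs)
  exact ⟨th', h'⟩

theorem essential_of_homotopic {P : Set M} {γ δ : C(Circle, Punctured P)}
    (h : Essential P γ) (k : γ.Homotopic δ) : Essential P δ := by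
  refine ⟨fun ⟨x, hx⟩ => h.1 ⟨x, k.trans hx⟩, fun p hp hW => h.2 p hp fun W hW1 => ?_⟩
  obtain ⟨ε, h1, h2⟩ := hW W hW1
  exact ⟨ε, k.trans h1, h2⟩

section par
variable {X : Type} [TopologicalSpace X]

/-- parallel curve -/
def par (Φ : Circle × ℝ → X) (h : Continuous Φ) (t : ℝ) : C(Circle, X) :=
  ⟨fun z => Φ (z, t), by fun_prop⟩

theorem par_homotopic {Φ : Circle × ℝ → X} (h : Continuous Φ) (t : ℝ) {c : C(Circle, X)}
    (hc : ∀ z, Φ (z, 0) = c z) : c.Homotopic (par Φ h t) := by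
  refine ⟨⟨⟨fun x => Φ (x.2, x.1 * t), by fun_prop⟩, ?_, ?_⟩⟩
  · intro z; simp [hc]
  · intro z; simp [par]

theorem par_simple {Φ : Circle × ℝ → X} (h : IsOpenEmbedding Φ) (t : ℝ) :
    IsSimpleClosed (par Φ h.continuous t) := by
  refine ⟨fun x => Φ (x.1, x.2 + t), ?_, fun z => by simp [par]⟩
  exact h.comp ((Homeomorph.refl Circle).prodCongr (Homeomorph.addRight t)).isOpenEmbedding

theorem simple_inj {γ : C(Circle, X)} (h : IsSimpleClosed γ) : Function.Injective γ := by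
  obtain ⟨Φ, hΦ, hc⟩ := h
  intro a b hab
  rw [← hc, ← hc] at hab
  exact congrArg Prod.fst (hΦ.injective hab)

end par

/-- the parallel curve as a curve of the same class -/
theorem exists_par {P : Set M} (δ : Curve P) :
    ∃ Φ : Circle × ℝ → Punctured P, IsOpenEmbedding Φ ∧ (∀ z, Φ (z, 0) = δ.1 z) ∧
      ∀ t : ℝ, ∃ δ' : Curve P, (⟦δ'⟧ : CurveClass P) = ⟦δ⟧ ∧ ∀ z, δ'.1 z = Φ (z, t) := by
  obtain ⟨Φ, hΦ, hc⟩ := δ.2.1
  refine ⟨Φ, hΦ, hc, fun t => ⟨⟨par Φ hΦ.continuous t, par_simple hΦ t,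
    essential_of_homotopic δ.2.2 (par_homotopic hΦ.continuous t hc)⟩, ?_, fun z => rfl⟩⟩
  exact Quotient.sound (Or.inl (par_homotopic hΦ.continuous t hc).symm)

theorem geomInt_le {P : Set M} (γ δ : Curve P) :
    geomInt (⟦γ⟧ : CurveClass P) ⟦δ⟧ ≤ (range γ.1 ∩ range δ.1).encard :=
  sInf_le ⟨γ, δ, rfl, rfl, rfl⟩

theorem geomInt_self {P : Set M} (a : CurveClass P) : geomInt a a ≤ 1 := by
  induction a using Quotient.inductionOn with
  | h γ =>
    obtain ⟨Φ, hΦ, hc, hp⟩ := exists_par γ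
    obtain ⟨δ, hδ, hδ1⟩ := hp 1
    have h1 := geomInt_le γ δ
    rw [hδ] at h1
    refine h1.trans ?_
    have h2 : range γ.1 ∩ range δ.1 = ∅ := by
      rw [eq_empty_iff_forall_notMem]
      rintro x ⟨⟨z, hz⟩, ⟨w, hw⟩⟩
      rw [← hc] at hz
      rw [hδ1] at hw
      have := congrArg Prod.snd (hΦ.injective (hz.trans hw.symm))
      norm_num at this
    rw [h2]; simp

theorem exists_rep {P : Set M} (a b : CurveClass P) : ∃ γ δ : Curve P,
    (⟦γ⟧ : CurveClass P) = a ∧ (⟦δ⟧ : CurveClass P) = b ∧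
      (range γ.1 ∩ range δ.1).encard = geomInt a b := by
  have hne : {n : ℕ∞ | ∃ γ δ : Curve P, (⟦γ⟧ : CurveClass P) = a ∧ (⟦δ⟧ : CurveClass P) = b ∧
    (range γ.1 ∩ range δ.1).encard = n}.Nonempty := by
    obtain ⟨γ, hγ⟩ := Quotient.exists_rep a
    obtain ⟨δ, hδ⟩ := Quotient.exists_rep b
    exact ⟨_, γ, δ, hγ, hδ, rfl⟩
  exact csInf_mem hne

theorem geomInt_eq_zero [T2Space M] {P : Set M} (hPc : IsClosed P) (c : Curve P)
    (hc : NullHomologous c.1) (b : CurveClass P)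
    (h : geomInt (⟦c⟧ : CurveClass P) b ≤ 1) : geomInt (⟦c⟧ : CurveClass P) b = 0 := by
  obtain ⟨γ, δ, hγ, hδ, hn⟩ := exists_rep (⟦c⟧ : CurveClass P) b
  obtain ⟨Φ, hΦ, hΦ0, hp⟩ := exists_par δ
  have hγn : NullHomologous γ.1 := hc.of_sameClass (Quotient.exact hγ)
  have hr : range (fun z => Φ (z, 0)) = range δ.1 := by
    congr 1; ext1 z; exact hΦ0 z
  obtain ⟨t, ht⟩ := Gen.push_closed hPc Φ hΦ γ.1 (simple_inj γ.2.1) hγn (by rw [hr, hn]; exact h)
  obtain ⟨δ', hδ', hδ1⟩ := hp t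
  have h3 := geomInt_le γ δ'
  rw [hγ, hδ', hδ] at h3
  have hr' : range δ'.1 = range (fun z => Φ (z, t)) := by
    congr 1; ext1 z; exact hδ1 z
  rw [hr', disjoint_iff_inter_eq_empty.1 ht, encard_empty] at h3
  exact le_antisymm h3 bot_le

theorem exists_maximal {P : Set M} (a : CurveClass P) :
    ∃ Γ : Set (CurveClass P), a ∈ Γ ∧ IsMaximalOneSystem Γ := by
  obtain ⟨Γ, h1, h2⟩ := zorn_subset_nonempty {Δ : Set (CurveClass P) | IsOneSystem Δ} (by
    intro C hC hch hne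
    refine ⟨⋃₀ C, ?_, fun s hs => subset_sUnion_of_mem hs⟩
    rintro x ⟨s, hs, hx⟩ y ⟨t, ht, hy⟩
    rcases hch.total hs ht with h | h
    · exact hC ht x (h hx) y hy
    · exact hC hs x hx y (h hy)) {a} (by
    rintro x hx y hy
    rw [mem_singleton_iff] at hx hy
    subst hx; subst hy
    exact geomInt_self _)
  exact ⟨Γ, h1 rfl, h2⟩

theorem not_fills [T2Space M] {P : Set M} (hPc : IsClosed P) (c : Curve P)
    (hc : NullHomologous c.1) (Γ : Set (CurveClass P))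
    (hcΓ : (⟦c⟧ : CurveClass P) ∈ Γ) (hΓ : IsOneSystem Γ) : ¬ Fills Γ := by
  rintro ⟨R, hR⟩
  set i0 : Γ := ⟨⟦c⟧, hcΓ⟩ with hi0
  set γ := R.curve i0 with hγ
  obtain ⟨Φ, hΦ, hΦ0⟩ := γ.2.1
  set K : Set (Punctured P) := ⋃ a : {a : Γ // a ≠ i0}, range (R.curve a.1).1 with hK
  have hKc : IsClosed K := by
    refine LocallyFinite.isClosed_iUnion ?_ fun a => (isCompact_range (R.curve a.1).1.continuous).isClosed
    exact R.locallyFinite.comp_injective Subtype.val_injective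
  have hd : Disjoint (range γ.1) K := by
    rw [hK, disjoint_iUnion_right]
    rintro ⟨a, ha⟩
    have h1 := R.minimal i0 a (Ne.symm ha)
    have h2 : geomInt i0.1 a.1 = 0 := geomInt_eq_zero hPc c hc a.1 (hΓ _ hcΓ _ a.2)
    rw [h2, encard_eq_zero] at h1
    exact disjoint_iff_inter_eq_empty.2 h1
  have hcompl : R.compl = (range γ.1 ∪ K)ᶜ := by
    rw [Realization.compl]
    congr 1
    ext x
    simp only [mem_iUnion, mem_union, hK]
    constructor
    · rintro ⟨a, ha⟩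
      by_cases h : a = i0
      · left; rw [h] at ha; exact ha
      · right; exact ⟨⟨a, h⟩, ha⟩
    · rintro (h | ⟨a, h⟩)
      · exact ⟨i0, h⟩
      · exact ⟨a.1, h⟩
  obtain ⟨x, hx, h1, h2⟩ := Gen.next Φ hΦ γ.1 hΦ0 γ.2.2 K hKc hd
  rw [← hcompl] at hx h1 h2
  rcases hR x hx with h | h
  · exact h1 h
  · exact h2 h


theorem null_loc (c : C(Circle, Punctured four)) (hc : ∀ z, (c z : Torus) = loc z 0) :
    NullHomotopic ((incl four).comp c) := by
  refine ⟨(Circle.exp (Real.pi / 2), Circle.exp 0), ⟨⟨⟨fun x => (Circle.exp (Real.pi / 2 +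
    (1 - (x.1 : ℝ)) * (rad 0 * (x.2 : ℂ).re)), Circle.exp ((1 - (x.1 : ℝ)) *
    (rad 0 * (x.2 : ℂ).im))), ?_⟩, ?_, ?_⟩⟩⟩
  · refine Continuous.prodMk ?_ ?_
    · exact Circle.exp.continuous.comp (by fun_prop)
    · exact Circle.exp.continuous.comp (by fun_prop)
  · intro z
    simp [incl, hc, loc]
  · intro z
    simp

theorem isClosed_four : IsClosed four := by
  have h1 : IsClosed {x : Torus | (x.1 : ℂ).im = 0} :=
    isClosed_eq (by fun_prop) continuous_const
  have h2 : IsClosed {x : Torus | (x.2 : ℂ).im = 0} :=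
    isClosed_eq (by fun_prop) continuous_const
  exact h1.inter h2

theorem exists_curve : ∃ c : Curve four, NullHomologous c.1 := by
  obtain ⟨h, hO⟩ := collar
  obtain ⟨c, hc⟩ : ∃ c : C(Circle, Punctured four), ∀ z, c z = ⟨loc z 0, h z 0⟩ := by
    refine ⟨⟨fun z => ⟨loc z 0, h z 0⟩, ?_⟩, fun z => rfl⟩
    have h1 : Continuous fun z : Circle => (z, (0 : ℝ)) := by fun_prop
    have h2 := hO.continuous.comp h1
    exact h2
  have hs : IsSimpleClosed c := ⟨_, hO, fun z => (hc z).symm⟩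
  have hc' : ∀ z, (c z : Torus) = loc z 0 := fun z => by rw [hc z]
  exact ⟨⟨c, hs, ess c hc'⟩, nullHomologous_of_null c (null_loc c hc')⟩

end Pool.Agent.W5h51.OS.Fin
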