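import Pool.Agent.W5h51.OS.MainM
import Pool.Agent.W5h51.OS.Defs3

set_option autoImplicit false

open Topology Set

namespace Pool.Agent.W5h51.OS.Fin

/-- nothing is removed -/
def homeoEmpty (M : Type) [TopologicalSpace M] : M ≃ₜ Punctured (∅ : Set M) where
  toFun x := ⟨x, fun h => h⟩
  invFun x := x.1
  left_inv _ := rfl
  right_inv _ := rfl
  continuous_toFun := by fun_prop
  continuous_invFun := continuous_subtype_val

theorem exists_curve2 (hC : S_COLLAR2) (hE : S_ESS2) (hN : S_NHOM2) :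
    ∃ c : Curve (∅ : Set GenusTwo), NullHomologous c.1 := by
  obtain ⟨h, hO⟩ := hC
  have h0 : Real.arctan 0 / 2 = 0 := by simp
  obtain ⟨c, hc⟩ : ∃ c : C(Circle, GenusTwo), ∀ z, c z = ⟨loc2 z (Real.arctan 0 / 2), h z 0⟩ := by
    refine ⟨⟨fun z => ⟨loc2 z (Real.arctan 0 / 2), h z 0⟩, ?_⟩, fun z => rfl⟩
    have h1 : Continuous fun z : Circle => (z, (0 : ℝ)) := by fun_prop
    have h2 := hO.continuous.comp h1
    exact h2
  have hc' : ∀ z, (c z : Circle × Circle × ℝ) = loc2 z 0 := by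
    intro z
    have h1 : (c z : Circle × Circle × ℝ) = loc2 z (Real.arctan 0 / 2) := congrArg Subtype.val (hc z)
    exact h1.trans (congrArg (loc2 z) h0)
  let e := homeoEmpty GenusTwo
  let c2 : C(Circle, Punctured (∅ : Set GenusTwo)) := (⟨e, e.continuous⟩ : C(_, _)).comp c
  have hs : IsSimpleClosed c2 := by
    refine ⟨fun x => e ⟨loc2 x.1 (Real.arctan x.2 / 2), h x.1 x.2⟩, e.isOpenEmbedding.comp hO,
      fun z => ?_⟩
    change e _ = e (c z)
    rw [hc z]
  have he : Essential (∅ : Set GenusTwo) c2 := by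
    refine ⟨?_, fun p hp => absurd hp (notMem_empty p)⟩
    rintro ⟨x, hx⟩
    refine hE c hc' ⟨x.1, ?_⟩
    have h1 : ((incl (∅ : Set GenusTwo)).comp c2).Homotopic
        ((incl (∅ : Set GenusTwo)).comp (ContinuousMap.const Circle x)) :=
      ContinuousMap.Homotopic.comp (ContinuousMap.Homotopic.refl _) hx
    exact h1
  exact ⟨⟨c2, hs, he⟩, fun F => hN c hc' F⟩

end Pool.Agent.W5h51.OS.Fin
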